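import Mathlib
import Pool.Agent.Lib.MP_fb225e_nt.Fam.Relative
import Pool.Agent.Lib.MP_fb225e_nt.Fam.Half
import Pool.Agent.Lib.MP_fb225e_nt.Fam.Kernel
import Pool.Agent.Lib.MP_fb225e_nt.Fam.Completed
import Pool.Agent.Lib.MP_fb225e_nt.Fam.OrdOne
import Pool.Agent.Lib.MP_fb225e_nt.Fam.Perm

/-!
# MP_fb225e_nt: descent of the edge zeros to quadratic extensions

Let `E` be an elliptic curve over `ℚ`, let `k` be a number field and let `L/k` be a finite Galois
extension in whose Galois group every element is a product of two involutions, for instance an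
extension with Galois group `S_n`. Assume that `(E, K)` is continuable for all the fields `K`
between `k` and `L`. We prove that for every `ρ` with `Re ρ ≥ 3/2` there is a field `K₀` between `k`
and `L` of degree at most `2` over `k` such that the fields `K` with `Λ(E/K, ρ) = 0` are exactly
those that contain `K₀`, or exactly those that do not contain `K₀`. The second case with `K₀ ≠ k`
can only occur for `ρ = 3/2`.

In particular, if `Λ(E/K, ρ) ≠ 0` for the fields `K` with `[K : k] ≤ 2`, then `Λ(E/K, ρ) ≠ 0` for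
all the fields `K` between `k` and `L`.
-/

namespace Pool.Agent.Results.MP_fb225e_nt.EdgeDescent

open Pool.Agent.MPfb225e.Fam Module

/-- The group is strongly real: every element is a product of two elements of square `1`. -/
def StronglyReal (G : Type) [Group G] : Prop :=
  ∀ σ : G, ∃ u v : G, u * u = 1 ∧ v * v = 1 ∧ σ = u * v

theorem stronglyReal_perm {G α : Type} [Group G] (e : G ≃* Equiv.Perm α) : StronglyReal G := by
  intro σ
  obtain ⟨u, v, hu, hv, huv⟩ := perm_involutions (e σ)
  refine ⟨e.symm u, e.symm v, ?_, ?_, ?_⟩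
  · rw [← map_mul, hu, map_one]
  · rw [← map_mul, hv, map_one]
  · rw [← map_mul, ← huv, MulEquiv.symm_apply_apply]

theorem main (E : WeierstrassCurve ℚ) [E.IsElliptic]
    (k L : Type) [Field k] [NumberField k] [Field L] [NumberField L] [Algebra k L] [IsGalois k L]
    (hL : StronglyReal (L ≃ₐ[k] L))
    (F : IntermediateField k L → ℂ → ℂ) (hF : ∀ K, Differentiable ℂ (F K))
    (hFL : ∀ K : IntermediateField k L, ∀ s : ℂ, 3 / 2 < s.re →
      F K s = (E.baseChange K).LSeries s)
    (A : IntermediateField k L → ℝ) (hA : ∀ K, 0 < A K) (ρ : ℂ) (hρ : 3 / 2 ≤ ρ.re) :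
    ∃ K₀ : IntermediateField k L, finrank k K₀ ≤ 2 ∧
      ((∀ K : IntermediateField k L, completed K (A K) (F K) ρ = 0 ↔ K₀ ≤ K) ∨
        (∀ K : IntermediateField k L, completed K (A K) (F K) ρ ≠ 0 ↔ K₀ ≤ K) ∧
          (ρ ≠ 3 / 2 → K₀ = ⊥)) := by
  have hFL' : ∀ K : IntermediateField k L, ∀ s : ℂ, 3 / 2 < s.re → F K s =
      (@WeierstrassCurve.baseChange ℚ _ E K _ DivisionRing.toRatAlgebra).LSeries s := by
    intro K s hs
    rw [hFL K s hs]
  have hpos : 0 < ρ.re := by linarith
  have h0 : ∀ K : IntermediateField k L, completed K (A K) (F K) ρ = 0 ↔ F K ρ = 0 := by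
    intro K
    constructor
    · intro h
      exact (mul_eq_zero.mp h).resolve_left (pre_ne_zero (finrank ℚ K) (hA K) hpos)
    · intro h
      unfold completed
      rw [h, mul_zero]
  rcases hρ.lt_or_eq with h | h
  · refine ⟨⊥, ?_, Or.inr ⟨fun K => ?_, fun _ => rfl⟩⟩
    · rw [IntermediateField.finrank_bot]
      norm_num
    · refine ⟨fun _ => bot_le, fun _ => ?_⟩
      rw [Ne, h0]
      exact ne_zero_of_lt E K (hFL' K) h
  · have hρ' : ρ = 3 / 2 + ρ.im * Complex.I := by
      apply Complex.ext
      · simp [← h]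
      · simp
    have hle' : ∀ K : IntermediateField k L, analyticOrderAt (F K) ρ ≤ 1 := by
      intro K
      have hell : (@WeierstrassCurve.baseChange ℚ _ E K _ DivisionRing.toRatAlgebra).IsElliptic :=
        inferInstanceAs (E.map _).IsElliptic
      exact order_le_one K
        (@WeierstrassCurve.baseChange ℚ _ E K _ DivisionRing.toRatAlgebra) (F K) (hF K)
        (hFL' K) hρ
    have hcast : ∀ K : IntermediateField k L, (ord (F K) ρ.im : ℕ∞) = analyticOrderAt (F K) ρ := by
      intro K
      unfold ord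
      rw [← hρ']
      refine Nat.cast_analyticOrderNatAt fun ht => ?_
      have := hle' K
      rw [ht] at this
      exact absurd this (by decide)
    have hle : ∀ K : IntermediateField k L, ord (F K) ρ.im ≤ 1 := by
      intro K
      have := hle' K
      rw [← hcast] at this
      exact_mod_cast this
    have hz : ∀ K : IntermediateField k L, completed K (A K) (F K) ρ = 0 ↔
        ord (F K) ρ.im ≠ 0 := by
      intro K
      rw [h0 K, Ne, ← Nat.cast_inj (R := ℕ∞), hcast, Nat.cast_zero,
        ((hF K).analyticAt ρ).analyticOrderAt_eq_zero, Ne, not_not]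
    obtain ⟨K₀, hK₀, hcl⟩ := descent_rel E F hF hL ρ.im hFL' hle
    refine ⟨K₀, hK₀, ?_⟩
    rcases hcl with hcl | hcl
    · left
      intro K
      rw [hz K, ← hcl K]
      have := hle K
      omega
    · right
      refine ⟨fun K => ?_, fun hne => ?_⟩
      · rw [Ne, hz K, ← hcl K, not_not]
      · have ht : ρ.im ≠ 0 := by
          intro h1
          apply hne
          rw [hρ', h1]
          simp
        by_contra hbot
        have h1 : ord (F ⊥) ρ.im ≠ 0 := by
          intro h2
          exact hbot (le_bot_iff.1 ((hcl ⊥).1 h2))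
        have h2 : ord (F K₀) ρ.im = 0 := (hcl K₀).2 le_rfl
        let _ : Algebra (⊥ : IntermediateField k L) K₀ :=
          (IntermediateField.inclusion (bot_le : ⊥ ≤ K₀)).toRingHom.toAlgebra
        have hd : finrank (⊥ : IntermediateField k L) K₀ ≤ 2 := by
          have hs : IsScalarTower k (⊥ : IntermediateField k L) K₀ :=
            IsScalarTower.of_algebraMap_eq fun x => rfl
          have h3 := @finrank_mul_finrank k (⊥ : IntermediateField k L) K₀ _ _ _ _ _ _ hs
          rw [IntermediateField.finrank_bot, one_mul] at h3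
          rw [h3]
          exact hK₀
        exact ord_ne_zero_of_ne E (⊥ : IntermediateField k L) K₀ hd (F ⊥) (F K₀) (hF ⊥) (hF K₀)
          (hFL' ⊥) (hFL' K₀) ht h1 h2

theorem result :
    (∀ (E : WeierstrassCurve ℚ) [E.IsElliptic] (k L : Type) [Field k] [NumberField k] [Field L]
      [NumberField L] [Algebra k L] [IsGalois k L], StronglyReal (L ≃ₐ[k] L) →
      ∀ F : IntermediateField k L → ℂ → ℂ, (∀ K, Differentiable ℂ (F K)) →
      (∀ K : IntermediateField k L, ∀ s : ℂ, 3 / 2 < s.re → F K s = (E.baseChange K).LSeries s) →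
      ∀ A : IntermediateField k L → ℝ, (∀ K, 0 < A K) → ∀ ρ : ℂ, 3 / 2 ≤ ρ.re →
      (∃ K₀ : IntermediateField k L, finrank k K₀ ≤ 2 ∧
        ((∀ K : IntermediateField k L, completed K (A K) (F K) ρ = 0 ↔ K₀ ≤ K) ∨
          (∀ K : IntermediateField k L, completed K (A K) (F K) ρ ≠ 0 ↔ K₀ ≤ K) ∧
            (ρ ≠ 3 / 2 → K₀ = ⊥))) ∧
      ((∀ K : IntermediateField k L, finrank k K ≤ 2 → completed K (A K) (F K) ρ ≠ 0) →
        ∀ K : IntermediateField k L, completed K (A K) (F K) ρ ≠ 0)) ∧
    ∀ (G α : Type) [Group G], Nonempty (G ≃* Equiv.Perm α) → StronglyReal G := by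
  refine ⟨?_, fun G α _ ⟨e⟩ => stronglyReal_perm e⟩
  intro E _ k L _ _ _ _ _ _ hL F hF hFL A hA ρ hρ
  have key := main E k L hL F hF hFL A hA ρ hρ
  refine ⟨key, fun hn K => ?_⟩
  obtain ⟨K₀, hK₀, h | ⟨h, -⟩⟩ := key
  · exact absurd ((h K₀).2 le_rfl) (hn K₀ hK₀)
  · have hbot : K₀ ≤ ⊥ := by
      rw [← h]
      refine hn ⊥ ?_
      rw [IntermediateField.finrank_bot]
      norm_num
    exact (h K).2 (hbot.trans bot_le)

end Pool.Agent.Results.MP_fb225e_nt.EdgeDescent
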