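import Mathlib
import Pool.Agent.Lib.MP_fb225e_nt.Fam.Twists
import Pool.Agent.Lib.MP_fb225e_nt.Fam.Completed

/-!
# MP_fb225e_nt: approximate relations between number fields, and two-transitive fields

Let `E` be an elliptic curve over `ℚ`, let `K_i` be number fields inside a Galois number field `L`
such that all the pairs `(E, K_i)` are continuable, and let `c_i` be integers. For `σ` in the Galois
group `G` of `L` let `fix_i(σ)` be the number of embeddings of `K_i` into `L` fixed by `σ`, let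
`f = ∑_i c_i fix_i` and let `X_ρ = ∑_i c_i ord_ρ Λ(E/K_i, s)`. If `f` is identically zero, then
`∏_i L(E/K_i, s)^{c_i} = 1`. We prove that `X_ρ = 0` at every `ρ ≠ 3/2` with `Re ρ ≥ 3/2` as soon as
the mean value over `G` of `|f|` is less than `1`, that `|X_{3/2}| ≤ 1` then, and that `X_{3/2} = 0`
if the mean value is less than `1/2`.

Let `meanSquare E` be the upper logarithmic mean of `a_p² / p` over the primes `p` (it is `1` by
modularity and the Rankin-Selberg method, which we do not use). Unless `meanSquare E > 1`, we have: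
if the mean value of `f²` is at most `2` and `|f(σ)| ≥ 3` for some `σ`, then `X_ρ = 0` at every
`ρ ≠ 3/2` with `Re ρ ≥ 3/2`, `|X_{3/2}| ≤ 1`, and `X_{3/2} = 0` if the mean value of `f²` is at most
`1`.

For a number field `K` of degree at least `4` for which `K ⊗ K` has exactly two simple factors (the
Galois group is two-transitive) it follows that `Λ(E/K, s)` and `Λ(E/ℚ, s)` have the same order at
every `ρ ≠ 3/2` with `Re ρ ≥ 3/2`, and also at `3/2` unless `meanSquare E > 1`.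
-/

namespace Pool.Agent.Results.MP_fb225e_nt.EdgeRelations

open Pool.Agent.MPfb225e.Fam Module

/-- The part on general relations. -/
theorem general (E : WeierstrassCurve ℚ) [E.IsElliptic] {ι : Type} [Fintype ι]
    (K : ι → Type) [∀ i, Field (K i)] [∀ i, NumberField (K i)]
    (F : ι → ℂ → ℂ) (hF : ∀ i, Differentiable ℂ (F i))
    (hFL : ∀ i, ∀ s : ℂ, 3 / 2 < s.re → F i s = (E.baseChange (K i)).LSeries s)
    (A : ι → ℝ) (hA : ∀ i, 0 < A i)
    (L : Type) [Field L] [NumberField L] [IsGalois ℚ L] (hK : ∀ i, Nonempty (K i →ₐ[ℚ] L))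
    (c : ι → ℤ)
    (hc : ∑ σ : L ≃ₐ[ℚ] L, |∑ i, c i * (fix (K i) σ : ℤ)| < Nat.card (L ≃ₐ[ℚ] L)) :
    (∀ ρ : ℂ, 3 / 2 ≤ ρ.re → ρ ≠ 3 / 2 →
      ∑ i, c i * (analyticOrderNatAt (completed (K i) (A i) (F i)) ρ : ℤ) = 0) ∧
    |∑ i, c i * (analyticOrderNatAt (completed (K i) (A i) (F i)) (3 / 2) : ℤ)| ≤ 1 ∧
    (2 * ∑ σ : L ≃ₐ[ℚ] L, |∑ i, c i * (fix (K i) σ : ℤ)| < Nat.card (L ≃ₐ[ℚ] L) →
      ∑ i, c i * (analyticOrderNatAt (completed (K i) (A i) (F i)) (3 / 2) : ℤ) = 0) := by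
  have hG : (0 : ℝ) < Nat.card (L ≃ₐ[ℚ] L) := by
    have : 0 < Nat.card (L ≃ₐ[ℚ] L) := Nat.card_pos
    exact_mod_cast this
  have hcast : ((∑ σ : L ≃ₐ[ℚ] L, |∑ i, c i * (fix (K i) σ : ℤ)| : ℤ) : ℝ) =
      ∑ σ : L ≃ₐ[ℚ] L, |∑ i, (c i : ℝ) * fix (K i) σ| := by
    push_cast
    rfl
  have hsize : size K L c < 1 := by
    unfold size
    rw [div_lt_one hG, ← hcast]
    exact_mod_cast hc
  obtain ⟨h1, h2⟩ := relation_orders E K L hK F hF hFL c hsize
  have hne : ∀ i, ∀ s : ℂ, 3 / 2 < s.re → F i s ≠ 0 := fun i s hs =>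
    ne_zero_of_lt E (K i) (hFL i) hs
  have hord : ∀ i, ∀ ρ : ℂ, 3 / 2 ≤ ρ.re →
      analyticOrderNatAt (completed (K i) (A i) (F i)) ρ = analyticOrderNatAt (F i) ρ := by
    intro i ρ hρ
    unfold analyticOrderNatAt
    rw [order_completed (K i) (hA i) (hF i) (by linarith)]
  have h0 : ∀ i, analyticOrderNatAt (completed (K i) (A i) (F i)) (3 / 2) = ord (F i) 0 := by
    intro i
    rw [hord i _ (by norm_num)]
    unfold ord
    congr 1
    simp
  have hint : |∑ i, c i * (ord (F i) 0 : ℤ)| ≤ 1 := by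
    have h3 : |((∑ i, c i * (ord (F i) 0 : ℤ) : ℤ) : ℝ)| < 2 := lt_of_le_of_lt h2 (by linarith)
    rw [← Int.cast_abs] at h3
    have h4 : |∑ i, c i * (ord (F i) 0 : ℤ)| < 2 := by exact_mod_cast h3
    omega
  refine ⟨fun ρ hρ hρ2 => ?_, ?_, fun hc2 => ?_⟩
  · rcases hρ.lt_or_eq with h | h
    · refine Finset.sum_eq_zero fun i _ => ?_
      rw [hord i ρ hρ]
      unfold analyticOrderNatAt
      rw [((hF i).analyticAt ρ).analyticOrderAt_eq_zero.2 (hne i ρ h)]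
      simp
    · have hρ' : ρ = 3 / 2 + ρ.im * Complex.I := by
        apply Complex.ext
        · simp [← h]
        · simp
      have ht : ρ.im ≠ 0 := by
        intro h0
        apply hρ2
        rw [hρ', h0]
        simp
      rw [← h1 ρ.im ht]
      refine Finset.sum_congr rfl fun i _ => ?_
      rw [hord i ρ hρ]
      unfold ord
      rw [← hρ']
  · rw [Finset.sum_congr rfl fun i _ => by rw [h0 i]]
    exact hint
  · rw [Finset.sum_congr rfl fun i _ => by rw [h0 i]]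
    have hsize2 : 2 * size K L c < 1 := by
      unfold size
      rw [← mul_div_assoc, div_lt_one hG, ← hcast]
      exact_mod_cast hc2
    have h3 : |((∑ i, c i * (ord (F i) 0 : ℤ) : ℤ) : ℝ)| < 1 := lt_of_le_of_lt h2 hsize2
    rw [← Int.cast_abs] at h3
    have h4 : |∑ i, c i * (ord (F i) 0 : ℤ)| < 1 := by exact_mod_cast h3
    exact Int.abs_lt_one_iff.1 h4


/-- The part on relations of norm at most two. -/
theorem general_two (E : WeierstrassCurve ℚ) [E.IsElliptic] {ι : Type} [Fintype ι]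
    (K : ι → Type) [∀ i, Field (K i)] [∀ i, NumberField (K i)]
    (F : ι → ℂ → ℂ) (hF : ∀ i, Differentiable ℂ (F i))
    (hFL : ∀ i, ∀ s : ℂ, 3 / 2 < s.re → F i s = (E.baseChange (K i)).LSeries s)
    (A : ι → ℝ) (hA : ∀ i, 0 < A i)
    (L : Type) [Field L] [NumberField L] [IsGalois ℚ L] (hK : ∀ i, Nonempty (K i →ₐ[ℚ] L))
    (c : ι → ℤ)
    (hc : ∑ σ : L ≃ₐ[ℚ] L, (∑ i, c i * (fix (K i) σ : ℤ)) ^ 2 ≤ 2 * Nat.card (L ≃ₐ[ℚ] L))
    (hσ : ∃ σ : L ≃ₐ[ℚ] L, 3 ≤ |∑ i, c i * (fix (K i) σ : ℤ)|) :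
    1 < meanSquare E ∨
    ((∀ ρ : ℂ, 3 / 2 ≤ ρ.re → ρ ≠ 3 / 2 →
      ∑ i, c i * (analyticOrderNatAt (completed (K i) (A i) (F i)) ρ : ℤ) = 0) ∧
    |∑ i, c i * (analyticOrderNatAt (completed (K i) (A i) (F i)) (3 / 2) : ℤ)| ≤ 1 ∧
    (∑ σ : L ≃ₐ[ℚ] L, (∑ i, c i * (fix (K i) σ : ℤ)) ^ 2 ≤ Nat.card (L ≃ₐ[ℚ] L) →
      ∑ i, c i * (analyticOrderNatAt (completed (K i) (A i) (F i)) (3 / 2) : ℤ) = 0)) := by
  rcases lt_or_ge 1 (meanSquare E) with hM | hM
  · exact Or.inl hM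
  right
  have hG : (0 : ℝ) < Nat.card (L ≃ₐ[ℚ] L) := by
    have : 0 < Nat.card (L ≃ₐ[ℚ] L) := Nat.card_pos
    exact_mod_cast this
  have hne : ∀ i, ∀ s : ℂ, 3 / 2 < s.re → F i s ≠ 0 := fun i s hs =>
    ne_zero_of_lt E (K i) (hFL i) hs
  have hord : ∀ i, ∀ ρ : ℂ, 3 / 2 ≤ ρ.re →
      analyticOrderNatAt (completed (K i) (A i) (F i)) ρ = analyticOrderNatAt (F i) ρ := by
    intro i ρ hρ
    unfold analyticOrderNatAt
    rw [order_completed (K i) (hA i) (hF i) (by linarith)]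
  have h0 : ∀ i, analyticOrderNatAt (completed (K i) (A i) (F i)) (3 / 2) = ord (F i) 0 := by
    intro i
    rw [hord i _ (by norm_num)]
    unfold ord
    congr 1
    simp
  refine ⟨fun ρ hρ hρ2 => ?_, ?_, fun hc1 => ?_⟩
  · rcases hρ.lt_or_eq with h | h
    · refine Finset.sum_eq_zero fun i _ => ?_
      rw [hord i ρ hρ]
      unfold analyticOrderNatAt
      rw [((hF i).analyticAt ρ).analyticOrderAt_eq_zero.2 (hne i ρ h)]
      simp
    · have hρ' : ρ = 3 / 2 + ρ.im * Complex.I := by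
        apply Complex.ext
        · simp [← h]
        · simp
      have ht : ρ.im ≠ 0 := by
        intro h0
        apply hρ2
        rw [hρ', h0]
        simp
      have h1 : ∑ i, c i * (ord (F i) ρ.im : ℤ) = 0 := by
        by_contra hcon
        have h2 := twist_ne E K L hK F hF hFL c hc hσ ht hcon
        have h3 : 0 < 1 / (70 * (Nat.card (L ≃ₐ[ℚ] L) : ℝ)) := by positivity
        linarith
      rw [← h1]
      refine Finset.sum_congr rfl fun i _ => ?_
      rw [hord i ρ hρ]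
      unfold ord
      rw [← hρ']
  · rw [Finset.sum_congr rfl fun i _ => by rw [h0 i]]
    exact twist_at E K L hK F hF hFL c hc (by linarith)
  · rw [Finset.sum_congr rfl fun i _ => by rw [h0 i]]
    by_contra hcon
    have h2 := twist_at_one E K L hK F hF hFL c hc1 hσ hcon
    have h3 : 0 < 1 / (Nat.card (L ≃ₐ[ℚ] L) : ℝ) := by positivity
    linarith

/-- The sum of squares for the relation `K - ℚ`. -/
theorem sum_sq_sgn (K : Type) [Field K] [NumberField K] (L : Type) [Field L] [NumberField L]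
    [IsGalois ℚ L] (hK : Nonempty (K →ₐ[ℚ] L)) :
    ∑ σ : L ≃ₐ[ℚ] L, (∑ i, sgn i * (fix (WithRat K i) σ : ℤ)) ^ 2 =
      ((gam K K : ℤ) - 1) * Nat.card (L ≃ₐ[ℚ] L) := by
  have hG : (0 : ℝ) < Nat.card (L ≃ₐ[ℚ] L) := by
    have : 0 < Nat.card (L ≃ₐ[ℚ] L) := Nat.card_pos
    exact_mod_cast this
  have h1 := hasMean_fun (ι := Unit) (K := fun _ => K) (L := L) (fun _ => hK)
    (fun a => ((a () : ℝ) - 1) ^ 2)
  have h2 := ((hasMean_mul K K).add ((hasMean_homCount K).smul (-2))).add HasMean.one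
  have h3 := h1.unique (h2.congr (g := fun p => ((homCount K p : ℝ) - 1) ^ 2) fun p _ => by ring)
  rw [div_eq_iff hG.ne'] at h3
  have h4 : ∀ σ : L ≃ₐ[ℚ] L, (∑ i, sgn i * (fix (WithRat K i) σ : ℤ)) = (fix K σ : ℤ) - 1 := by
    intro σ
    rw [Fintype.sum_bool]
    have e1 : fix (WithRat K true) σ = fix K σ := rfl
    have e2 : fix (WithRat K false) σ = 1 := fix_rat L σ
    have e3 : sgn true = 1 := rfl
    have e4 : sgn false = -1 := rfl
    rw [e1, e2, e3, e4]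
    push_cast
    ring
  have h5 : ((∑ σ : L ≃ₐ[ℚ] L, (∑ i, sgn i * (fix (WithRat K i) σ : ℤ)) ^ 2 : ℤ) : ℝ) =
      ((((gam K K : ℤ) - 1) * Nat.card (L ≃ₐ[ℚ] L) : ℤ) : ℝ) := by
    rw [Finset.sum_congr rfl fun σ _ => by rw [h4 σ]]
    push_cast
    rw [h3]
    ring
  exact_mod_cast h5

theorem fix_one (K : Type) [Field K] [NumberField K] (L : Type) [Field L] [NumberField L]
    [IsGalois ℚ L] (hK : Nonempty (K →ₐ[ℚ] L)) :
    ∑ i, sgn i * (fix (WithRat K i) (1 : L ≃ₐ[ℚ] L) : ℤ) = (finrank ℚ K : ℤ) - 1 := by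
  have hcard : Nat.card (K →ₐ[ℚ] L) = finrank ℚ K := by
    obtain ⟨φ₀⟩ := hK
    refine AlgHom.natCard_of_splits ℚ K L fun x => ?_
    rw [← minpoly.algHom_eq φ₀ φ₀.injective x]
    exact Normal.splits inferInstance _
  rw [Fintype.sum_bool]
  have e1 : fix (WithRat K true) (1 : L ≃ₐ[ℚ] L) = finrank ℚ K := by
    change fix K (1 : L ≃ₐ[ℚ] L) = _
    rw [← hcard]
    unfold fix
    refine Nat.card_congr (Equiv.subtypeUnivEquiv fun φ => ?_)
    ext x
    rfl
  have e2 : fix (WithRat K false) (1 : L ≃ₐ[ℚ] L) = 1 := fix_rat L 1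
  have e3 : sgn true = 1 := rfl
  have e4 : sgn false = -1 := rfl
  rw [e1, e2, e3, e4]
  push_cast
  ring

theorem result :
    (∀ (E : WeierstrassCurve ℚ) [E.IsElliptic] {ι : Type} [Fintype ι]
      (K : ι → Type) [∀ i, Field (K i)] [∀ i, NumberField (K i)]
      (F : ι → ℂ → ℂ), (∀ i, Differentiable ℂ (F i)) →
      (∀ i, ∀ s : ℂ, 3 / 2 < s.re → F i s = (E.baseChange (K i)).LSeries s) →
      ∀ A : ι → ℝ, (∀ i, 0 < A i) →
      ∀ (L : Type) [Field L] [NumberField L] [IsGalois ℚ L], (∀ i, Nonempty (K i →ₐ[ℚ] L)) →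
      ∀ c : ι → ℤ,
      (∑ σ : L ≃ₐ[ℚ] L, |∑ i, c i * (fix (K i) σ : ℤ)| < Nat.card (L ≃ₐ[ℚ] L) →
        (∀ ρ : ℂ, 3 / 2 ≤ ρ.re → ρ ≠ 3 / 2 →
          ∑ i, c i * (analyticOrderNatAt (completed (K i) (A i) (F i)) ρ : ℤ) = 0) ∧
        |∑ i, c i * (analyticOrderNatAt (completed (K i) (A i) (F i)) (3 / 2) : ℤ)| ≤ 1 ∧
        (2 * ∑ σ : L ≃ₐ[ℚ] L, |∑ i, c i * (fix (K i) σ : ℤ)| < Nat.card (L ≃ₐ[ℚ] L) →
          ∑ i, c i * (analyticOrderNatAt (completed (K i) (A i) (F i)) (3 / 2) : ℤ) = 0)) ∧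
      (∑ σ : L ≃ₐ[ℚ] L, (∑ i, c i * (fix (K i) σ : ℤ)) ^ 2 ≤ 2 * Nat.card (L ≃ₐ[ℚ] L) →
        (∃ σ : L ≃ₐ[ℚ] L, 3 ≤ |∑ i, c i * (fix (K i) σ : ℤ)|) →
        1 < meanSquare E ∨
        ((∀ ρ : ℂ, 3 / 2 ≤ ρ.re → ρ ≠ 3 / 2 →
          ∑ i, c i * (analyticOrderNatAt (completed (K i) (A i) (F i)) ρ : ℤ) = 0) ∧
        |∑ i, c i * (analyticOrderNatAt (completed (K i) (A i) (F i)) (3 / 2) : ℤ)| ≤ 1 ∧
        (∑ σ : L ≃ₐ[ℚ] L, (∑ i, c i * (fix (K i) σ : ℤ)) ^ 2 ≤ Nat.card (L ≃ₐ[ℚ] L) →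
          ∑ i, c i * (analyticOrderNatAt (completed (K i) (A i) (F i)) (3 / 2) : ℤ) = 0)))) ∧
    ∀ (E : WeierstrassCurve ℚ) [E.IsElliptic] (K : Type) [Field K] [NumberField K]
      (F F₀ : ℂ → ℂ), Differentiable ℂ F → Differentiable ℂ F₀ →
      (∀ s : ℂ, 3 / 2 < s.re → F s = (E.baseChange K).LSeries s) →
      (∀ s : ℂ, 3 / 2 < s.re → F₀ s = E.LSeries s) →
      ∀ A A₀ : ℝ, 0 < A → 0 < A₀ →
      (3 ≤ finrank ℚ K → gam K K = 2 →
        (∀ ρ : ℂ, 3 / 2 ≤ ρ.re → ρ ≠ 3 / 2 →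
          analyticOrderNatAt (completed K A F) ρ = analyticOrderNatAt (completed ℚ A₀ F₀) ρ) ∧
        |(analyticOrderNatAt (completed K A F) (3 / 2) : ℤ) -
          analyticOrderNatAt (completed ℚ A₀ F₀) (3 / 2)| ≤ 1) ∧
      (4 ≤ finrank ℚ K → gam K K ≤ 3 → 1 < meanSquare E ∨
        ((∀ ρ : ℂ, 3 / 2 ≤ ρ.re → ρ ≠ 3 / 2 →
          analyticOrderNatAt (completed K A F) ρ = analyticOrderNatAt (completed ℚ A₀ F₀) ρ) ∧
        |(analyticOrderNatAt (completed K A F) (3 / 2) : ℤ) -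
          analyticOrderNatAt (completed ℚ A₀ F₀) (3 / 2)| ≤ 1 ∧
        (gam K K = 2 →
          analyticOrderNatAt (completed K A F) (3 / 2) =
            analyticOrderNatAt (completed ℚ A₀ F₀) (3 / 2)))) := by
  refine ⟨?_, ?_⟩
  · intro E _ ι _ K _ _ F hF hFL A hA L _ _ _ hK c
    exact ⟨fun hc => general E K F hF hFL A hA L hK c hc,
      fun hc hσ => general_two E K F hF hFL A hA L hK c hc hσ⟩
  · intro E _ K _ _ F F₀ hF hF₀ hFL hFL₀ A A₀ hA hA₀
    obtain ⟨L, _, _, _, hK⟩ := exists_closure K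
    have e0 : @WeierstrassCurve.baseChange ℚ _ E ℚ _ DivisionRing.toRatAlgebra = E := by
      have : @algebraMap ℚ ℚ _ _ DivisionRing.toRatAlgebra = RingHom.id ℚ :=
        Subsingleton.elim _ _
      rw [WeierstrassCurve.baseChange, this, WeierstrassCurve.map_id]
    have hG : (0 : ℝ) < Nat.card (L ≃ₐ[ℚ] L) := by
      have : 0 < Nat.card (L ≃ₐ[ℚ] L) := Nat.card_pos
      exact_mod_cast this
    let FF : Bool → ℂ → ℂ := fun o => match o with | true => F | false => F₀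
    let AA : Bool → ℝ := fun o => match o with | true => A | false => A₀
    have hFF : ∀ i, Differentiable ℂ (FF i) := by
      rintro (_ | _)
      · exact hF₀
      · exact hF
    have hFFL : ∀ i, ∀ s : ℂ, 3 / 2 < s.re → FF i s = (E.baseChange (WithRat K i)).LSeries s := by
      rintro (_ | _)
      · intro s hs
        change F₀ s = (@WeierstrassCurve.baseChange ℚ _ E ℚ _ DivisionRing.toRatAlgebra).LSeries s
        rw [e0]
        exact hFL₀ s hs
      · exact hFL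
    have hAA : ∀ i, 0 < AA i := by
      rintro (_ | _)
      · exact hA₀
      · exact hA
    have hKK : ∀ i, Nonempty (WithRat K i →ₐ[ℚ] L) := by
      rintro (_ | _)
      · exact ⟨(algebraMap ℚ L).toRatAlgHom⟩
      · exact hK
    have hsum : ∀ ρ : ℂ, ∑ i, sgn i * (analyticOrderNatAt (completed (WithRat K i) (AA i) (FF i)) ρ : ℤ) =
        (analyticOrderNatAt (completed K A F) ρ : ℤ) -
          analyticOrderNatAt (completed ℚ A₀ F₀) ρ := by
      intro ρ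
      rw [Fintype.sum_bool]
      change 1 * (analyticOrderNatAt (completed K A F) ρ : ℤ) +
        -1 * (analyticOrderNatAt (completed ℚ A₀ F₀) ρ : ℤ) = _
      ring
    refine ⟨fun hn hg => ?_, fun hn hg => ?_⟩
    · have hsize : size (WithRat K) L sgn < 1 := by
        rw [size_sgn K L hK]
        exact der_lt K L hK hn hg
      have hc : ∑ σ : L ≃ₐ[ℚ] L, |∑ i, sgn i * (fix (WithRat K i) σ : ℤ)| <
          Nat.card (L ≃ₐ[ℚ] L) := by
        unfold size at hsize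
        rw [div_lt_one hG] at hsize
        exact_mod_cast hsize
      obtain ⟨h1, h2, -⟩ := general E (WithRat K) FF hFF hFFL AA hAA L hKK sgn hc
      refine ⟨fun ρ hρ hρ2 => ?_, ?_⟩
      · have h3 := h1 ρ hρ hρ2
        rw [hsum] at h3
        omega
      · rwa [hsum] at h2
    · have hsq := sum_sq_sgn K L hK
      have hGz : (0 : ℤ) ≤ Nat.card (L ≃ₐ[ℚ] L) := by positivity
      have hc : ∑ σ : L ≃ₐ[ℚ] L, (∑ i, sgn i * (fix (WithRat K i) σ : ℤ)) ^ 2 ≤
          2 * Nat.card (L ≃ₐ[ℚ] L) := by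
        rw [hsq]
        refine mul_le_mul_of_nonneg_right ?_ hGz
        have : (gam K K : ℤ) ≤ 3 := by exact_mod_cast hg
        omega
      rcases general_two E (WithRat K) FF hFF hFFL AA hAA L hKK sgn hc ⟨1, by
        rw [fix_one K L hK]
        have h4 : (4 : ℤ) ≤ finrank ℚ K := by exact_mod_cast hn
        exact le_trans (by omega) (le_abs_self _)⟩ with h | ⟨h1, h2, h3⟩
      · exact Or.inl h
      · right
        refine ⟨fun ρ hρ hρ2 => ?_, ?_, fun hg2 => ?_⟩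
        · have h4 := h1 ρ hρ hρ2
          rw [hsum] at h4
          omega
        · rwa [hsum] at h2
        · have h4 := h3 (by rw [hsq, hg2]; norm_num)
          rw [hsum] at h4
          omega

end Pool.Agent.Results.MP_fb225e_nt.EdgeRelations
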