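import Mathlib
import Pool.Agent.Lib.MP_fb225e_nt.Interface
import Pool.Agent.Lib.MP_fb225e_nt.Classify
import Pool.Agent.Lib.MP_fb225e_nt.Curve
import Pool.Agent.Lib.MP_fb225e_nt.Edge
import Pool.Agent.Lib.MP_fb225e_nt.Hasse
import Pool.Agent.Lib.MP_fb225e_nt.Zeta
import Pool.Agent.Lib.MP_fb225e_nt.OrthogProof
import Pool.Agent.Lib.MP_fb225e_nt.ConeVolume
import Pool.Agent.Lib.MP_fb225e_nt.ConeDescr
import Pool.Agent.Lib.MP_fb225e_nt.IdealCount
import Pool.Agent.Lib.MP_fb225e_nt.Simple.Main
import Pool.Agent.Lib.MP_fb225e_nt.Simple.BiasCurve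

/-!
# MP_fb225e_nt: the zeros of a continuable `Λ(W/K, s)` with real part at least `3/2`

Let `K` be a number field and `W` an elliptic curve over `K` (for instance the base change of an
elliptic curve over `ℚ`) whose L-series has an entire continuation `F`. Then every zero of the
completed L-function with real part `≥ 3/2` is simple and lies on the line `Re s = 3/2`, and there
is a real `t₀ ≥ 0` such that all these zeros are among `3/2 ± i t₀`. If there is such a zero that is
not real, then for every `0 < η ≤ 1` the places `v` with `a_v < -(2 - η) √(Nv)` have lower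
logarithmic density at least `η / 16`. If `W` is the base change of an elliptic curve over `ℚ`, this
contradicts the Sato-Tate law over `ℚ`, by which this density is `O(η ^ (3/2))`.

The proof uses: the Hasse bound over finite fields of characteristic at least 5 (proved here by
Manin's method), a power-saving count of ideals and the non-vanishing of the Dedekind zeta
function on `Re s = 1`, and an extremal argument for the real numbers `a_v / √(Nv) ∈ [-2, 2]`.
For the order at `s = 3/2`: a smooth count of ideals with an error smaller than any power gives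
the entire continuation of a smoothed Dedekind zeta function, and a double zero is excluded by
comparing a Dirichlet series with nonnegative coefficients with its continuation.
-/

namespace Pool.Agent.Results.MP_fb225e_nt.EdgeZeros

open Pool.Agent.MPfb225e NumberField IsDedekindDomain Filter Topology

universe u

/-- The completed L-function `A ^ (s/2) ((2π)^(-s) Γ(s)) ^ [K:ℚ] F(s)`, where `F` is the entire
continuation of the L-series and `A` is the conductor (any positive real). -/
noncomputable def completed (K : Type u) [Field K] [NumberField K] (A : ℝ) (F : ℂ → ℂ) (s : ℂ) :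
    ℂ :=
  (A : ℂ) ^ (s / 2) *
    ((2 * (Real.pi : ℂ)) ^ (-s) * Complex.Gamma s) ^ (Module.finrank ℚ K) * F s

/-- The three inputs hold for every number field. -/
theorem orthogonality (K : Type u) [Field K] [NumberField K] : Orthogonality K :=
  OrthogProof.orthogonality (Cone.idealCount K (Cone.volumeFormula K) (Cone.coneDescription K))
    (Zeta.logZeta K)

/-- The factor in front of `F`. -/
noncomputable def pre (n : ℕ) (A : ℝ) (s : ℂ) : ℂ :=
  (A : ℂ) ^ (s / 2) * ((2 * (Real.pi : ℂ)) ^ (-s) * Complex.Gamma s) ^ n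

theorem pre_analyticAt (n : ℕ) {A : ℝ} (hA : 0 < A) {s : ℂ} (hs : 0 < s.re) :
    AnalyticAt ℂ (pre n A) s := by
  have hopen : IsOpen {z : ℂ | 0 < z.re} := isOpen_lt continuous_const Complex.continuous_re
  refine DifferentiableOn.analyticAt (s := {z : ℂ | 0 < z.re}) ?_ (hopen.mem_nhds hs)
  intro z hz
  have hA0 : (A : ℂ) ≠ 0 := by exact_mod_cast hA.ne'
  have hpi : (2 * (Real.pi : ℂ)) ≠ 0 := by
    have := Real.pi_ne_zero
    exact mul_ne_zero two_ne_zero (by exact_mod_cast this)
  have h1 : DifferentiableAt ℂ (fun z : ℂ => (A : ℂ) ^ (z / 2)) z :=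
    (differentiableAt_id.div_const 2).const_cpow (Or.inl hA0)
  have h2 : DifferentiableAt ℂ (fun z : ℂ => (2 * (Real.pi : ℂ)) ^ (-z)) z :=
    differentiableAt_id.neg.const_cpow (Or.inl hpi)
  have h3 : DifferentiableAt ℂ Complex.Gamma z := by
    refine Complex.differentiableAt_Gamma z fun m hm => ?_
    have : 0 < z.re := hz
    rw [hm] at this
    simp at this
    have h4 : (0 : ℝ) ≤ m := by positivity
    linarith
  exact (h1.mul ((h2.mul h3).pow n)).differentiableWithinAt

theorem pre_ne_zero (n : ℕ) {A : ℝ} (hA : 0 < A) {s : ℂ} (hs : 0 < s.re) : pre n A s ≠ 0 := by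
  have hA0 : (A : ℂ) ≠ 0 := by exact_mod_cast hA.ne'
  have hpi : (2 * (Real.pi : ℂ)) ≠ 0 := by
    have := Real.pi_ne_zero
    exact mul_ne_zero two_ne_zero (by exact_mod_cast this)
  unfold pre
  refine mul_ne_zero ?_ (pow_ne_zero _ (mul_ne_zero ?_ (Complex.Gamma_ne_zero_of_re_pos hs)))
  · rw [Complex.cpow_def_of_ne_zero hA0]; exact Complex.exp_ne_zero _
  · rw [Complex.cpow_def_of_ne_zero hpi]; exact Complex.exp_ne_zero _

/-- The number `a_v`, minus the linear coefficient of the local polynomial of `W` at `v`. At a place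
of good reduction it is the trace `Nv + 1 - #W(k_v)` of Frobenius. -/
noncomputable def coeffAt {K : Type u} [Field K] [NumberField K] (W : WeierstrassCurve K)
    (v : HeightOneSpectrum (𝓞 K)) : ℤ :=
  -((W.baseChange (v.adicCompletion K)).localPolynomial (v.adicCompletionIntegers K)).coeff 1

theorem simple_zeros (K : Type u) [Field K] [NumberField K] (W : WeierstrassCurve K)
    [W.IsElliptic] (F : ℂ → ℂ) (hF : Differentiable ℂ F)
    (hFL : ∀ s : ℂ, 3 / 2 < s.re → F s = W.LSeries s) (A : ℝ) (hA : 0 < A) :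
    ∃ t₀ : ℝ, 0 ≤ t₀ ∧ ∀ ρ : ℂ, 3 / 2 ≤ ρ.re → completed K A F ρ = 0 →
      ρ.re = 3 / 2 ∧ (ρ.im = t₀ ∨ ρ.im = -t₀) ∧ analyticOrderAt (completed K A F) ρ = 1 := by
  have hO := orthogonality K
  obtain ⟨h1, t₀, ht₀, h2⟩ := Edge.edge hO W (Curve.logExpansion hasse_module hO W)
    (classification K) F hF hFL
  refine ⟨t₀, ht₀, fun ρ hρ hz => ?_⟩
  have hpos : 0 < ρ.re := by linarith
  have hprod : completed K A F = fun s => pre (Module.finrank ℚ K) A s * F s := rfl
  have hF0 : F ρ = 0 := by
    rw [hprod] at hz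
    exact (mul_eq_zero.mp hz).resolve_left (pre_ne_zero _ hA hpos)
  have hre : ρ.re = 3 / 2 := by
    rcases hρ.lt_or_eq with h | h
    · exact absurd hF0 (h1 ρ h)
    · exact h.symm
  obtain ⟨h3, h4⟩ := h2 ρ hre hF0
  refine ⟨hre, h3, ?_⟩
  have hord : analyticOrderAt (completed K A F) ρ = analyticOrderAt F ρ := by
    have h5 : analyticOrderAt (completed K A F) ρ =
        analyticOrderAt (pre (Module.finrank ℚ K) A) ρ + analyticOrderAt F ρ :=
      analyticOrderAt_mul (pre_analyticAt _ hA hpos) (hF.analyticAt ρ)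
    have h6 : analyticOrderAt (pre (Module.finrank ℚ K) A) ρ = 0 :=
      (pre_analyticAt _ hA hpos).analyticOrderAt_eq_zero.mpr (pre_ne_zero _ hA hpos)
    rw [h5, h6, zero_add]
  have hle : analyticOrderAt F ρ ≤ 1 := by
    by_cases ht : t₀ = 0
    · have h7 : ρ = 3 / 2 := by
        apply Complex.ext
        · simp [hre]
        · rw [ht, neg_zero, or_self] at h3
          simp [h3]
      rw [h7]
      exact Simple.simpleAtEdge K W F hF hFL
    · rwa [if_neg ht] at h4
  have hge : 1 ≤ analyticOrderAt F ρ :=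
    Order.one_le_iff_ne_zero.mpr fun h => ((hF.analyticAt ρ).analyticOrderAt_eq_zero.mp h) hF0
  rw [hord]
  exact le_antisymm hle hge

theorem result (K : Type u) [Field K] [NumberField K] (W : WeierstrassCurve K) [W.IsElliptic]
    (F : ℂ → ℂ) (hF : Differentiable ℂ F) (hFL : ∀ s : ℂ, 3 / 2 < s.re → F s = W.LSeries s)
    (A : ℝ) (hA : 0 < A) :
    ∃ t₀ : ℝ, 0 ≤ t₀ ∧
      (∀ ρ : ℂ, 3 / 2 ≤ ρ.re → completed K A F ρ = 0 →
        ρ.re = 3 / 2 ∧ (ρ.im = t₀ ∨ ρ.im = -t₀) ∧ analyticOrderAt (completed K A F) ρ = 1) ∧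
      ∀ ρ : ℂ, 3 / 2 ≤ ρ.re → completed K A F ρ = 0 → ρ ≠ 3 / 2 → ∀ η : ℝ, 0 < η → η ≤ 1 →
        ∀ᶠ ε : ℝ in 𝓝[>] 0, η / 16 * Real.log (1 / ε) ≤
          ∑' v : HeightOneSpectrum (𝓞 K),
            {v | (coeffAt W v : ℝ) < -(2 - η) * √(Ideal.absNorm v.asIdeal)}.indicator
              (fun v => (Ideal.absNorm v.asIdeal : ℝ) ^ (-(1 + ε))) v := by
  obtain ⟨t₀, ht₀, h⟩ := simple_zeros K W F hF hFL A hA
  refine ⟨t₀, ht₀, h, fun ρ hρ hz hne η hη hη1 => ?_⟩
  have hF0 : F ρ = 0 :=
    (mul_eq_zero.mp hz).resolve_left (pre_ne_zero (Module.finrank ℚ K) hA (by linarith))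
  exact Curve.bias_curve hasse_module (orthogonality K) (classification K) W F hF hFL hρ hF0 hne
    hη hη1

end Pool.Agent.Results.MP_fb225e_nt.EdgeZeros
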