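import Mathlib
import Pool.Agent.Lib.MP_fb225e_nt.Fam.DisjointMS
import Pool.Agent.Lib.MP_fb225e_nt.Fam.Completed

/-!
# MP_fb225e_nt: families of number fields

Let `E` be an elliptic curve over `ℚ` with `(E, ℚ)` continuable, and let `K_i` be any number fields
for which `(E, K_i)` is continuable. Let `μ_i(t)` be the order of vanishing of `Λ(E/K_i, s)` at
`3/2 + it` minus that of `Λ(E/ℚ, s)`, and let `γ_{ij}` be the number of simple factors of the
algebra `K_i ⊗ K_j`. Let `M = meanSquare E` be the upper logarithmic mean of `a_p² / p` over the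
primes `p`; it is at most `4` by Hasse's theorem (and it is `1` by modularity and the
Rankin-Selberg method, which we do not use). Then
`(∑_{t, i} c_{t,i} μ_i(t))² ≤ M ∑_t κ_t ∑_{i,j} c_{t,i} c_{t,j} (γ_{ij} - 1)`
for all real `c`, where `κ_0 = 1` and `κ_t = 1/2` for `t > 0`. If the fields are pairwise linearly
disjoint, then all but at most `M r` of the functions `Λ(E/K_i, s)` have the same zeros as
`Λ(E/ℚ, s)` in the closed half plane `Re s ≥ 3/2`, where `r + 1` is the largest `γ_{ii}`.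
-/

namespace Pool.Agent.Lib.MP_fb225e_nt.Old.ExceptionalFields

open Pool.Agent.MPfb225e.Fam Module
open scoped TensorProduct

/-- The order of vanishing at `3/2 + it` of the completed `L`-function. -/
noncomputable def vanish (K : Type) [Field K] [NumberField K] (A : ℝ) (F : ℂ → ℂ) (t : ℝ) : ℕ :=
  analyticOrderNatAt (completed K A F) (3 / 2 + t * Complex.I)

theorem vanish_eq (K : Type) [Field K] [NumberField K] {A : ℝ} (hA : 0 < A) {F : ℂ → ℂ}
    (hF : Differentiable ℂ F) (t : ℝ) : vanish K A F t = ord F t := by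
  unfold vanish ord analyticOrderNatAt
  rw [order_completed K hA hF]
  simp

theorem result (E : WeierstrassCurve ℚ) [E.IsElliptic]
    (F₀ : ℂ → ℂ) (hF₀ : Differentiable ℂ F₀)
    (hFL₀ : ∀ s : ℂ, 3 / 2 < s.re → F₀ s = E.LSeries s) (A₀ : ℝ) (hA₀ : 0 < A₀)
    {ι : Type} (K : ι → Type) [∀ i, Field (K i)] [∀ i, NumberField (K i)]
    (F : ι → ℂ → ℂ) (hF : ∀ i, Differentiable ℂ (F i))
    (hFL : ∀ i, ∀ s : ℂ, 3 / 2 < s.re → F i s = (E.baseChange (K i)).LSeries s)
    (A : ι → ℝ) (hA : ∀ i, 0 < A i) :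
    (∀ (I : Finset ι) (T : Finset ℝ), (∀ t ∈ T, 0 ≤ t) → ∀ c : ℝ → ι → ℝ,
      (∑ t ∈ T, ∑ i ∈ I, c t i *
        ((vanish (K i) (A i) (F i) t : ℝ) - vanish ℚ A₀ F₀ t)) ^ 2 ≤
      meanSquare E * ∑ t ∈ T, (if t = 0 then 1 else 1 / 2) *
        ∑ i ∈ I, ∑ j ∈ I, c t i * c t j * (gam (K i) (K j) - 1)) ∧
    ((∀ i, 1 < finrank ℚ (K i)) → (∀ i j, i ≠ j → IsField (K i ⊗[ℚ] K j)) →
      (∀ (I : Finset ι) (T : Finset ℝ), (∀ t ∈ T, 0 < t) →
        ∑ i ∈ I, (((vanish (K i) (A i) (F i) 0 : ℝ) - vanish ℚ A₀ F₀ 0) ^ 2 +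
          2 * ∑ t ∈ T, ((vanish (K i) (A i) (F i) t : ℝ) - vanish ℚ A₀ F₀ t) ^ 2) /
            (gam (K i) (K i) - 1) ≤ meanSquare E) ∧
      ∀ r : ℕ, (∀ i, gam (K i) (K i) ≤ r + 1) → ∀ I : Finset ι,
        (∀ i ∈ I, ∃ ρ : ℂ, 3 / 2 ≤ ρ.re ∧ analyticOrderAt (completed (K i) (A i) (F i)) ρ ≠
          analyticOrderAt (completed ℚ A₀ F₀) ρ) → (I.card : ℝ) ≤ meanSquare E * r) ∧
    meanSquare E ≤ 4 ∧ ∀ i, gam (K i) (K i) ≤ finrank ℚ (K i) := by
  classical
  have hv := fun i t => vanish_eq (K i) (hA i) (hF i) t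
  have hv₀ := fun t => vanish_eq ℚ hA₀ hF₀ t
  refine ⟨?_, ?_, meanSquare_le_four E, fun i => gam_le (K i)⟩
  · intro I T hT c
    have h1 := edge_L2_rat_ms E (fun i : I => K i) (fun i => F i) (fun i => hF i) (fun i => hFL i)
      F₀ hF₀ hFL₀ T hT (fun t i => c t i)
    simp only [hv, hv₀]
    have e1 : ∀ t, (∑ i : I, c t i * ((ord (F i) t : ℝ) - ord F₀ t)) =
        ∑ i ∈ I, c t i * ((ord (F i) t : ℝ) - ord F₀ t) := fun t =>
      Finset.sum_coe_sort I (fun i => c t i * ((ord (F i) t : ℝ) - ord F₀ t))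
    have e2 : ∀ t, (∑ i : I, ∑ j : I, c t i * c t j * ((gam (K i) (K j) : ℝ) - 1)) =
        ∑ i ∈ I, ∑ j ∈ I, c t i * c t j * ((gam (K i) (K j) : ℝ) - 1) := fun t => by
      rw [← Finset.sum_coe_sort I]
      exact Finset.sum_congr rfl fun i _ =>
        Finset.sum_coe_sort I (fun j => c t i * c t j * ((gam (K i) (K j) : ℝ) - 1))
    simp only [e1, e2] at h1
    exact h1
  · intro hK hdis
    have hsum : ∀ (I : Finset ι) (T : Finset ℝ), (∀ t ∈ T, 0 < t) →
        ∑ i ∈ I, (((ord (F i) 0 : ℝ) - ord F₀ 0) ^ 2 +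
          2 * ∑ t ∈ T, ((ord (F i) t : ℝ) - ord F₀ t) ^ 2) / (gam (K i) (K i) - 1) ≤
            meanSquare E := by
      intro I T hT
      have h1 := disjoint_sum_ms E (fun i : I => K i) (fun i => F i) (fun i => hF i) (fun i => hFL i)
        F₀ hF₀ hFL₀ (fun i j hij => gam_of_isField _ _ (hdis i j fun h => hij (Subtype.ext h)))
        (fun i => two_le_gam (K i) (hK i)) T hT
      rw [← Finset.sum_coe_sort I]
      exact h1
    refine ⟨?_, ?_⟩
    · simp only [hv, hv₀]
      exact hsum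
    · intro r hr I hI
      have e0 : @WeierstrassCurve.baseChange ℚ _ E ℚ _ DivisionRing.toRatAlgebra = E := by
        have : @algebraMap ℚ ℚ _ _ DivisionRing.toRatAlgebra = RingHom.id ℚ :=
          Subsingleton.elim _ _
        rw [WeierstrassCurve.baseChange, this, WeierstrassCurve.map_id]
      have hFL₀' : ∀ s : ℂ, 3 / 2 < s.re → F₀ s =
        (@WeierstrassCurve.baseChange ℚ _ E ℚ _ DivisionRing.toRatAlgebra).LSeries s :=
          fun s hs => by rw [hFL₀ s hs, e0]
      have hne : ∀ i, ∀ s : ℂ, 3 / 2 < s.re → F i s ≠ 0 := fun i s hs =>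
        ne_zero_of_lt E (K i) (hFL i) hs
      have hne₀ : ∀ s : ℂ, 3 / 2 < s.re → F₀ s ≠ 0 := fun s hs => ne_zero_of_lt E ℚ hFL₀' hs
      have hpt : ∀ i ∈ I, ∃ t : ℝ, 0 ≤ t ∧ ord (F i) t ≠ ord F₀ t := by
        intro i hi
        obtain ⟨ρ, hρ, hρne⟩ := hI i hi
        have hpos : 0 < ρ.re := by linarith
        rw [order_completed (K i) (hA i) (hF i) hpos, order_completed ℚ hA₀ hF₀ hpos] at hρne
        rcases hρ.lt_or_eq with h | h
        · exfalso
          apply hρne
          rw [((hF i).analyticAt ρ).analyticOrderAt_eq_zero.2 (hne i ρ h),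
            (hF₀.analyticAt ρ).analyticOrderAt_eq_zero.2 (hne₀ ρ h)]
        · have hρ' : ρ = 3 / 2 + ρ.im * Complex.I := by
            apply Complex.ext
            · simp [← h]
            · simp
          rw [hρ', order_eq (hne i), order_eq hne₀] at hρne
          have h3 : ord (F i) ρ.im ≠ ord F₀ ρ.im := fun h4 => hρne (by rw [h4])
          rcases le_total 0 ρ.im with h5 | h5
          · exact ⟨ρ.im, h5, h3⟩
          · refine ⟨-ρ.im, by linarith, ?_⟩
            rw [ord_neg E (K i) (hF i) (hFL i), ord_neg E ℚ hF₀ hFL₀']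
            exact h3
      choose! τ hτ0 hτ using hpt
      have h2 := hsum I ((I.image τ).erase 0) (by
        intro t ht
        obtain ⟨ht0, ht1⟩ := Finset.mem_erase.1 ht
        obtain ⟨i, hi, rfl⟩ := Finset.mem_image.1 ht1
        exact lt_of_le_of_ne (hτ0 i hi) (Ne.symm ht0))
      rcases I.eq_empty_or_nonempty with hemp | hnon
      · rw [hemp, Finset.card_empty, Nat.cast_zero]
        exact mul_nonneg (meanSquare_nonneg E) (by positivity)
      have hr1 : (0 : ℝ) < r := by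
        obtain ⟨i, hi⟩ := hnon
        have h4 := (two_le_gam (K i) (hK i)).trans (hr i)
        have h5 : 0 < r := by omega
        exact_mod_cast h5
      have h3 : ∀ i ∈ I, 1 / (r : ℝ) ≤ (((ord (F i) 0 : ℝ) - ord F₀ 0) ^ 2 +
          2 * ∑ t ∈ (I.image τ).erase 0, ((ord (F i) t : ℝ) - ord F₀ t) ^ 2) /
            (gam (K i) (K i) - 1) := by
        intro i hi
        have hone : ∀ t, ord (F i) t ≠ ord F₀ t → 1 ≤ ((ord (F i) t : ℝ) - ord F₀ t) ^ 2 := by
          intro t ht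
          have h6 : (ord (F i) t : ℤ) - ord F₀ t ≠ 0 := by omega
          have h7 : 1 ≤ |(ord (F i) t : ℤ) - ord F₀ t| := Int.one_le_abs h6
          have h8 : (1 : ℝ) ≤ |(ord (F i) t : ℝ) - ord F₀ t| := by exact_mod_cast h7
          rw [← sq_abs]
          nlinarith
        have hsn : 0 ≤ ∑ t ∈ (I.image τ).erase 0, ((ord (F i) t : ℝ) - ord F₀ t) ^ 2 :=
          Finset.sum_nonneg fun t _ => sq_nonneg _
        have hnum : 1 ≤ ((ord (F i) 0 : ℝ) - ord F₀ 0) ^ 2 +
            2 * ∑ t ∈ (I.image τ).erase 0, ((ord (F i) t : ℝ) - ord F₀ t) ^ 2 := by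
          by_cases h0 : τ i = 0
          · have := hone 0 (h0 ▸ hτ i hi)
            linarith
          · have h6 : τ i ∈ (I.image τ).erase 0 :=
              Finset.mem_erase.2 ⟨h0, Finset.mem_image_of_mem τ hi⟩
            have h7 := Finset.single_le_sum (f := fun t => ((ord (F i) t : ℝ) - ord F₀ t) ^ 2)
              (fun t _ => sq_nonneg _) h6
            have h8 := hone _ (hτ i hi)
            have h9 : 0 ≤ ((ord (F i) 0 : ℝ) - ord F₀ 0) ^ 2 := sq_nonneg _
            linarith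
        have hg2 : (2 : ℝ) ≤ gam (K i) (K i) := by exact_mod_cast two_le_gam (K i) (hK i)
        have hgr : (gam (K i) (K i) : ℝ) - 1 ≤ (r : ℝ) := by
          have h7 : (gam (K i) (K i) : ℝ) ≤ (r : ℝ) + 1 := by exact_mod_cast hr i
          linarith
        exact div_le_div₀ (by linarith) hnum (by linarith) hgr
      have h4 := (Finset.sum_le_sum h3).trans h2
      rw [Finset.sum_const, nsmul_eq_mul, mul_one_div, div_le_iff₀ hr1] at h4
      exact h4

end Pool.Agent.Lib.MP_fb225e_nt.Old.ExceptionalFields
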