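import Mathlib
import Pool.Agent.Lib.MP_fb225e_nt.Szf.Main

/-!
# MP_fb225e_nt: no exceptional zeros of `L(E/K, s)` for 2-transitive `K`; Page's theorem for fields

Let `E` be an elliptic curve over `ℚ`. For number fields `K_1, …, K_m` of bounded degree such that
`K_i ⊗ K_j` has at most two simple factors on average, some `L(E/K_i, s)` has no real zero close to
the edge `s = 3/2` (uniformly in the `K_i`, the size of the L-functions entering through a parameter
`M` only), unless the numbers `m a_p / √p` are close to integers for most `p`, along some scales,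
which contradicts the Sato-Tate law (not used). If `K_i ⊗ K_j` has less than 5/4 simple factors on
average, then `L(E/ℚ, 3/2) ≠ 0` suffices.

The case `m = 1` concerns one field `K` with `K ⊗ K ≅ K × K'`, for instance any `K` of degree `n`
whose Galois closure has group `S_n`. If the `K_i` are pairwise linearly disjoint and the group of
each has at most `r + 1` orbits on pairs, then at most `r - 1` of the `L(E/K_i, s)` have an
exceptional zero: this is the analogue of Page's theorem.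

Proof: let `c_i(p)` be the number of primes of norm `p` of `K_i`, `x_p = a_p / √p`, and let `𝔼` be
the mean value with weights `ε p^(-1-ε) log p` at the scale `ε = θ δ / log (2M/δ)`. If all
`L(E/K_i, s)` have an exceptional zero then `𝔼[c_i x] ≤ -1 + κ`; `𝔼[c_i c_j] ≤ γ_ij + κ`, by
one-sided bounds for the logarithmic derivatives of zeta functions. An exceptional zero of
`ζ_{K_i}` would contradict `c_i x ≥ -2 c_i` at a larger scale, so `𝔼[c_i] ≥ 1 - κ`. Hence
`0 ≤ 𝔼[(Σ (c_i - 1) + m x)² - ‖m x‖²] ≤ Σ (γ_ij - 1) - 2 m² + 𝔼[m² x² - ‖m x‖²] + κ' < 0`.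
-/

namespace Pool.Agent.Lib.MP_fb225e_nt.Old.SiegelZeros

open Pool.Agent.MPfb225e NumberField Filter Topology

open scoped TensorProduct

universe u

/-- The completed L-function `A ^ (s/2) ((2π)^(-s) Γ(s)) ^ [K:ℚ] F(s)`, where `F` is the entire
continuation of the L-series and `A` is the conductor (any positive real). -/
noncomputable def completed (K : Type u) [Field K] [NumberField K] (A : ℝ) (F : ℂ → ℂ) (s : ℂ) :
    ℂ :=
  (A : ℂ) ^ (s / 2) *
    ((2 * (Real.pi : ℂ)) ^ (-s) * Complex.Gamma s) ^ (Module.finrank ℚ K) * F s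

/-- `M` bounds the error term, of exponent `1 - δ`, of the count of ideals of `K`. -/
def IdealBound (K : Type u) [Field K] [NumberField K] (δ M : ℝ) : Prop :=
  ∃ κ : ℝ, ∀ x : ℝ, 1 ≤ x →
    |(Nat.card {J : Ideal (𝓞 K) // J ≠ ⊥ ∧ (Ideal.absNorm J : ℝ) ≤ x} : ℝ) - κ * x| ≤
      M * x ^ (1 - δ)

/-- The number of simple factors of `K ⊗ K'`. -/
noncomputable def factors (K K' : Type u) [Field K] [NumberField K] [Field K'] [NumberField K'] :
    ℕ :=
  Nat.card (MaximalSpectrum (K ⊗[ℚ] K'))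

/-- The simple factor of `K ⊗ K'` attached to a maximal ideal, a number field. -/
abbrev Factor (K K' : Type u) [Field K] [NumberField K] [Field K'] [NumberField K']
    (I : MaximalSpectrum (K ⊗[ℚ] K')) : Type u := (K ⊗[ℚ] K') ⧸ I.asIdeal

noncomputable instance (K K' : Type u) [Field K] [NumberField K] [Field K'] [NumberField K']
    (I : MaximalSpectrum (K ⊗[ℚ] K')) : Field (Factor K K' I) := Ideal.Quotient.field I.asIdeal

instance (K K' : Type u) [Field K] [NumberField K] [Field K'] [NumberField K']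
    (I : MaximalSpectrum (K ⊗[ℚ] K')) : NumberField (Factor K K' I) :=
  have : Module.Finite ℚ (Factor K K' I) := inferInstance
  NumberField.of_module_finite ℚ (Factor K K' I)

/-- `a_p / √p` -/
noncomputable def xp (E : WeierstrassCurve ℚ) (p : ℕ) : ℝ := (E.LFunction p : ℝ) / √p

/-- The sum of `ε p ^ (-1-ε) log p (m² x_p² - ‖m x_p‖²)` over the primes `p`, where `x_p = a_p / √p`
and `‖y‖` is the distance of `y` to the nearest integer. -/
noncomputable def spread (E : WeierstrassCurve ℚ) (m : ℕ) (ε : ℝ) : ℝ :=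
  ε * ∑' p : Nat.Primes, Real.log p * (p : ℝ) ^ (-(1 + ε)) *
    ((m * xp E p) ^ 2 - |m * xp E p - round (m * xp E p)| ^ 2)

theorem spread_eq (E : WeierstrassCurve ℚ) (m : ℕ) (ε : ℝ) :
    spread E m ε = ε * ∑' p, Szf.lp ε p *
      ((m * Fam.lam E p) ^ 2 - Szf.dz (m * Fam.lam E p)) := rfl

theorem zero_of_completed (K : Type u) [Field K] [NumberField K] {A : ℝ} (hA : 0 < A) {F : ℂ → ℂ}
    {s : ℂ} (hs : 0 < s.re) : completed K A F s = 0 ↔ F s = 0 := by
  constructor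
  · intro h
    exact (mul_eq_zero.mp h).resolve_left (Fam.pre_ne_zero _ hA hs)
  · intro h
    unfold completed
    rw [h, mul_zero]

/-- comparison of the two forms of the region -/
theorem region {c δ M : ℝ} (hc : 0 < c) (hδ : 0 < δ) (hδ1 : δ ≤ 1 / 2) (hM : 2 ≤ M) :
    c / 2 * δ / Real.log (M / δ) ≤ c * δ / Zfr.Lg M 0 δ ∧ c / 2 * δ / Real.log (M / δ) ≤ c := by
  have hx : (4 : ℝ) ≤ M / δ := by
    rw [le_div_iff₀ hδ]
    nlinarith
  have h4 : 1 ≤ Real.log (M / δ) := by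
    have h1 : Real.exp 1 ≤ M / δ := by linarith [Real.exp_one_lt_d9]
    calc (1 : ℝ) = Real.log (Real.exp 1) := (Real.log_exp 1).symm
      _ ≤ Real.log (M / δ) := Real.log_le_log (Real.exp_pos 1) h1
  have hL2 := Zfr.two_le_Lg hδ hδ1 (le_refl (0 : ℝ)) hM
  have hle : Zfr.Lg M 0 δ ≤ 2 * Real.log (M / δ) := by
    unfold Zfr.Lg
    rw [← Real.log_rpow (by positivity), Real.rpow_two, sq]
    refine Real.log_le_log (by positivity) ?_
    have e : M * (0 + 2) / δ = 2 * (M / δ) := by ring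
    rw [e]
    exact mul_le_mul_of_nonneg_right (by linarith) (by positivity)
  constructor
  · rw [div_le_div_iff₀ (by linarith) (by linarith)]
    calc c / 2 * δ * Zfr.Lg M 0 δ ≤ c / 2 * δ * (2 * Real.log (M / δ)) :=
          mul_le_mul_of_nonneg_left hle (by positivity)
      _ = c * δ * Real.log (M / δ) := by ring
  · rw [div_le_iff₀ (by linarith)]
    have h1 : c / 2 * δ ≤ c * 1 := by nlinarith
    have h2 : c * 1 ≤ c * Real.log (M / δ) := mul_le_mul_of_nonneg_left h4 hc.le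
    linarith

theorem result (E : WeierstrassCurve ℚ) [E.IsElliptic] (F₀ : ℂ → ℂ) (hF₀ : Differentiable ℂ F₀)
    (hFL₀ : ∀ s : ℂ, 3 / 2 < s.re → F₀ s = E.LSeries s) (n m G : ℕ) (hG : G ≤ 2 * m ^ 2)
    (η : ℝ) (hη : 0 < η) :
    ((∃ᶠ ε : ℝ in 𝓝[>] 0, (m : ℝ) ^ 2 - η < spread E m ε) ∧
      (5 * m ^ 2 ≤ 4 * G ∨ completed ℚ 1 F₀ (3 / 2) = 0)) ∨
    ∃ c : ℝ, 0 < c ∧ ∀ (K : Fin m → Type u) [∀ i, Field (K i)] [∀ i, NumberField (K i)],
      (∀ i, Module.finrank ℚ (K i) ≤ n) → ∑ i, ∑ j, factors (K i) (K j) ≤ G →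
      ∀ F : Fin m → ℂ → ℂ, (∀ i, Differentiable ℂ (F i)) →
      (∀ i, ∀ s : ℂ, 3 / 2 < s.re → F i s = (E.baseChange (K i)).LSeries s) →
      ∀ A : Fin m → ℝ, (∀ i, 0 < A i) → ∀ δ M : ℝ, 0 < δ → δ ≤ 1 / 2 → 2 ≤ M →
      (∀ i, (|discr (K i)| : ℝ) ≤ M) →
      (∀ i, ∀ s : ℂ, 3 / 2 - δ ≤ s.re → |s.im| ≤ 1 → ‖F i s‖ ≤ M) →
      (∀ i, IdealBound (K i) δ M) → (∀ i j I, IdealBound (Factor (K i) (K j) I) δ M) →
      ∃ i, ∀ β : ℝ, 3 / 2 - c * δ / Real.log (M / δ) < β → completed (K i) (A i) (F i) β ≠ 0 := by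
  by_cases h : (G ≤ 2 * m ^ 2 ∧ ∃ η : ℝ, 0 < η ∧
      ∀ᶠ ε : ℝ in 𝓝[>] 0, spread E m ε ≤ (m : ℝ) ^ 2 - η) ∨
      (4 * G < 5 * m ^ 2 ∧ completed ℚ 1 F₀ (3 / 2) ≠ 0)
  swap
  · left
    push Not at h
    obtain ⟨h1, h2⟩ := h
    refine ⟨h1 hG η hη, ?_⟩
    by_cases hG2 : 4 * G < 5 * m ^ 2
    · exact Or.inr (h2 hG2)
    · exact Or.inl (not_lt.mp hG2)
  right
  have hyp : (F₀ (3 / 2) ≠ 0 ∧ 4 * (G - m ^ 2) < m ^ 2) ∨ (G - m ^ 2 ≤ m ^ 2 ∧ ∃ η : ℝ, 0 < η ∧
      ∀ᶠ ε : ℝ in 𝓝[>] 0, ε * ∑' p, Szf.lp ε p * ((m * Fam.lam E p) ^ 2 -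
        Szf.dz (m * Fam.lam E p)) ≤ (m : ℝ) ^ 2 - η) := by
    rcases h with ⟨hG, η, hη, hev⟩ | ⟨hG, h0⟩
    · right
      exact ⟨by omega, η, hη, hev⟩
    · left
      refine ⟨fun h1 => h0 ?_, by omega⟩
      unfold completed
      rw [h1, mul_zero]
  obtain ⟨c, hc, hmain⟩ := Szf.siegel.{u} E F₀ hF₀ hFL₀ n m (G - m ^ 2) hyp
  refine ⟨min c 1 / 2, by positivity, ?_⟩
  intro K _ _ hdeg hgam F hF hFL A hA δ M hδ hδ1 hM hdisc hFM hcnt hcnt2
  obtain ⟨i, hi⟩ := hmain K hdeg (by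
    have h1 : ∑ i, ∑ j, Fam.gam (K i) (K j) ≤ G := hgam
    omega) F hF hFL δ M hδ hδ1 hM hdisc hFM hcnt hcnt2
  refine ⟨i, fun β hβ => ?_⟩
  obtain ⟨h1, h2⟩ := region (c := min c 1) (by positivity) hδ hδ1 hM
  have h3 : min c 1 * δ / Zfr.Lg M 0 δ ≤ c * δ / Zfr.Lg M 0 δ := by
    have hL2 := Zfr.two_le_Lg hδ hδ1 (le_refl (0 : ℝ)) hM
    exact div_le_div_of_nonneg_right (mul_le_mul_of_nonneg_right (min_le_left _ _) hδ.le)
      (by linarith)
  have h4 : min c 1 ≤ 1 := min_le_right _ _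
  have hpos : 0 < ((β : ℝ) : ℂ).re := by
    rw [Complex.ofReal_re]
    linarith
  rw [Ne, zero_of_completed (K i) (hA i) hpos]
  exact hi β (by linarith)

end Pool.Agent.Lib.MP_fb225e_nt.Old.SiegelZeros
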