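import Mathlib
import Pool.Agent.Lib.MP_fb225e_nt.Szf.Sub

/-!
# MP_fb225e_nt: the classical zero-free region, without exceptional zeros, for all the subfields of a
Galois field with strongly real group

Let `E` be an elliptic curve over `ℚ`, and let `L` run over the Galois extensions of `ℚ` of degree `n`
such that every element of the Galois group is a product of two elements of square 1 (for instance
the symmetric groups) and such that `L(E/K, s)` is continuable for all `K ⊂ L`. Then no `L(E/K, s)`,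
`K ⊂ L`, has a zero in a region of the classical shape; the constants depend on `E` and `n` only and
the size of the L-functions enters through a parameter `M` (bounding the L-functions near the edge
`s = 3/2`, the discriminants, and the error terms of the counts of ideals). This is the third of
three alternatives; the first two say that the `x_p = a_p / √p` are distributed in one of two ways
along some scales `ε → 0`, which both contradict the Sato-Tate law (it is not used).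

Proof: by the Fejer kernel argument of ZeroFreeRegion there is at most one zero of `L(E/K, s)`, real
and simple, `3/2 - t_K` say. Let `𝔼` be the mean value over the primes with weights
`ε p^(-1-ε) log p`, and `c_K(p)` the number of primes of `K` of norm `p`. A two-sided version of the
local lemma of Landau gives `𝔼[c_K x] = -ε/(ε + t_K) + O(κ)`, uniformly in `K`. By the pigeonhole
principle there is a scale `ε` such that no `t_K`, `K ⊂ L`, is comparable to `ε`, hence `𝔼[c_K x]` is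
`-1 + O(κ)` or `O(κ)`. Now `c_K(p)` is the number of embeddings of `K` fixed by the Frobenius `σ_p`,
so that `𝔼[c_K x] = -∑_σ w(σ) fix_K(σ)` with `w(σ) = -𝔼[x; σ_p = σ]`. By compactness and the theorem
behind EdgeDescent, the set of `K` with an exceptional zero is that of the `K ⊃ K₀` or that of the
`K` not containing `K₀`, for some `K₀` with `[K₀ : ℚ] ≤ 2`. So it remains to show that there is no
exceptional zero for `ℚ` and for the quadratic field `K₀`. For `K₀` this would give `𝔼[c x] = -1`,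
`𝔼[c] = 1`, `𝔼[c²] ≤ 2`, `𝔼[x] = 0`, hence `𝔼[(c - 1 + x)²] ≤ 𝔼[x²] - 1`: a contradiction, as `x_p`
would be close to integers for most primes.
-/

namespace Pool.Agent.Lib.MP_fb225e_nt.Old.SubfieldZeros

open Pool.Agent.MPfb225e NumberField Filter Topology

universe u

/-- The completed L-function `A ^ (s/2) ((2π)^(-s) Γ(s)) ^ [K:ℚ] F(s)`, where `F` is the entire
continuation of the L-series and `A` is the conductor (any positive real). -/
noncomputable def completed (K : Type u) [Field K] [NumberField K] (A : ℝ) (F : ℂ → ℂ) (s : ℂ) :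
    ℂ :=
  (A : ℂ) ^ (s / 2) *
    ((2 * (Real.pi : ℂ)) ^ (-s) * Complex.Gamma s) ^ (Module.finrank ℚ K) * F s

/-- `M` bounds `F` on `Re s ≥ 3/2 - δ`, `|Im s| ≤ H`, the discriminant of `K`, and the error term, of
exponent `1 - δ`, of the count of ideals of `K`. -/
structure Bounded (K : Type u) [Field K] [NumberField K] (F : ℂ → ℂ) (δ H M : ℝ) : Prop where
  disc : (|discr K| : ℝ) ≤ M
  bound : ∀ s : ℂ, 3 / 2 - δ ≤ s.re → |s.im| ≤ H → ‖F s‖ ≤ M
  count : ∃ κ : ℝ, ∀ x : ℝ, 1 ≤ x →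
    |(Nat.card {J : Ideal (𝓞 K) // J ≠ ⊥ ∧ (Ideal.absNorm J : ℝ) ≤ x} : ℝ) - κ * x| ≤
      M * x ^ (1 - δ)

/-- The rectangle `Re s > 3/2 - c δ / log (M (T + 2) / δ)`, `|Im s| ≤ T`. -/
def rect (c δ T M : ℝ) : Set ℂ :=
  {s : ℂ | 3 / 2 - c * δ / Real.log (M * (T + 2) / δ) < s.re ∧ |s.im| ≤ T}

/-- Every element is a product of two elements of square 1. -/
def StronglyReal (G : Type u) [Group G] : Prop :=
  ∀ g : G, ∃ u v : G, u * u = 1 ∧ v * v = 1 ∧ g = u * v

/-- `a_p / √p` -/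
noncomputable def xp (E : WeierstrassCurve ℚ) (p : ℕ) : ℝ := (E.LFunction p : ℝ) / √p

/-- The sum of `ε p ^ (-1-ε) log p` over the primes `p` with `x_p < -(2 - η)`; its upper limit for
`ε → 0` is the upper logarithmic density of these primes. -/
noncomputable def bias (E : WeierstrassCurve ℚ) (η ε : ℝ) : ℝ :=
  ε * ∑' p : Nat.Primes, {p : Nat.Primes | xp E p < -(2 - η)}.indicator
    (fun p : Nat.Primes => Real.log p * (p : ℝ) ^ (-(1 + ε))) p

/-- The sum of `ε p ^ (-1-ε) log p (x_p² - ‖x_p‖²)` over the primes `p`, where `‖y‖` is the distance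
of `y` to the nearest integer. -/
noncomputable def spread (E : WeierstrassCurve ℚ) (ε : ℝ) : ℝ :=
  ε * ∑' p : Nat.Primes, Real.log p * (p : ℝ) ^ (-(1 + ε)) *
    (xp E p ^ 2 - |xp E p - round (xp E p)| ^ 2)

theorem bias_eq (E : WeierstrassCurve ℚ) (η ε : ℝ) :
    bias E η ε = ε * ∑' p : Nat.Primes, {p : Nat.Primes | Fam.lam E p < -2 + η}.indicator
      (fun p : Nat.Primes => Real.log p * (p : ℝ) ^ (-(1 + ε))) p := by
  unfold bias
  have h : {p : Nat.Primes | xp E p < -(2 - η)} = {p : Nat.Primes | Fam.lam E p < -2 + η} := by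
    ext p
    show xp E p < -(2 - η) ↔ xp E p < -2 + η
    have e : -(2 - η) = -2 + η := by ring
    rw [e]
  rw [h]

theorem spread_eq (E : WeierstrassCurve ℚ) (ε : ℝ) :
    spread E ε = ε * ∑' p, Szf.lp ε p * ((1 * Fam.lam E p) ^ 2 - Szf.dz (1 * Fam.lam E p)) := by
  simp only [one_mul]
  rfl

theorem zero_of_completed (K : Type u) [Field K] [NumberField K] {A : ℝ} (hA : 0 < A) {F : ℂ → ℂ}
    {s : ℂ} (hs : 0 < s.re) (h : completed K A F s = 0) : F s = 0 :=
  (mul_eq_zero.mp h).resolve_left (Fam.pre_ne_zero _ hA hs)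

/-- the width of the rectangle is at most `1/2` if `c ≤ 1` -/
theorem pos_of_rect {c δ T M : ℝ} (hc0 : 0 < c) (hc : c ≤ 1) (hδ : 0 < δ) (hδ1 : δ ≤ 1 / 2)
    (hT : 0 ≤ T) (hM : 2 ≤ M) {s : ℂ} (hs : 3 / 2 - c * δ / Real.log (M * (T + 2) / δ) < s.re) :
    0 < s.re := by
  have h1 := Zfr.two_le_Lg hδ hδ1 hT hM
  unfold Zfr.Lg at h1
  have h2 : c * δ / Real.log (M * (T + 2) / δ) ≤ 1 := by
    rw [div_le_one (by linarith)]
    nlinarith
  linarith

theorem result (E : WeierstrassCurve ℚ) [E.IsElliptic] (F₀ : ℂ → ℂ) (hF₀ : Differentiable ℂ F₀)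
    (hFL₀ : ∀ s : ℂ, 3 / 2 < s.re → F₀ s = E.LSeries s) (n : ℕ) (η η' : ℝ) (hη : 0 < η)
    (hη1 : η ≤ 1) (hη' : 0 < η') :
    (∃ᶠ ε : ℝ in 𝓝[>] 0, η / (16 * n) < bias E η ε) ∨
    (∃ᶠ ε : ℝ in 𝓝[>] 0, 1 - η' < spread E ε) ∨
    ∃ c : ℝ, 0 < c ∧ ∃ N : ℕ, ∀ (L : Type u) [Field L] [NumberField L] [IsGalois ℚ L],
      Module.finrank ℚ L = n → StronglyReal (L ≃ₐ[ℚ] L) →
      ∀ F : IntermediateField ℚ L → ℂ → ℂ, (∀ K, Differentiable ℂ (F K)) →
      (∀ K : IntermediateField ℚ L, ∀ s : ℂ, 3 / 2 < s.re → F K s = (E.baseChange K).LSeries s) →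
      ∀ A : IntermediateField ℚ L → ℝ, (∀ K, 0 < A K) →
      ∀ δ T M : ℝ, 0 < δ → δ ≤ 1 / 2 → 0 ≤ T → 2 ≤ M →
      (∀ K : IntermediateField ℚ L, Bounded K (F K) δ (N * (T + 1)) M) →
      ∀ K : IntermediateField ℚ L, ∀ ρ ∈ rect c δ T M, completed K (A K) (F K) ρ ≠ 0 := by
  by_cases hb0 : ∃ᶠ ε : ℝ in 𝓝[>] 0, η / (16 * n) < bias E η ε
  · exact Or.inl hb0
  by_cases hs0 : ∃ᶠ ε : ℝ in 𝓝[>] 0, 1 - η' < spread E ε
  · exact Or.inr (Or.inl hs0)
  have hb : ∀ᶠ ε : ℝ in 𝓝[>] 0, bias E η ε ≤ η / (16 * n) :=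
    (not_frequently.mp hb0).mono fun ε hε => not_lt.mp hε
  have hs : ∀ᶠ ε : ℝ in 𝓝[>] 0, spread E ε ≤ 1 - η' :=
    (not_frequently.mp hs0).mono fun ε hε => not_lt.mp hε
  right
  right
  have hb' : ∀ᶠ ε : ℝ in 𝓝[>] 0, ε * ∑' p : Nat.Primes,
      {p : Nat.Primes | Fam.lam E p < -2 + η}.indicator
      (fun p : Nat.Primes => Real.log p * (p : ℝ) ^ (-(1 + ε))) p ≤ η / (16 * n) := by
    refine hb.mono fun ε hε => ?_
    rw [← bias_eq]
    exact hε
  have hs' : ∀ᶠ ε : ℝ in 𝓝[>] 0, ε * ∑' p, Szf.lp ε p *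
      ((1 * Fam.lam E p) ^ 2 - Szf.dz (1 * Fam.lam E p)) ≤ 1 - η' := by
    refine hs.mono fun ε hε => ?_
    rw [← spread_eq]
    exact hε
  obtain ⟨c₁, hc₁, N₁, h1⟩ := Szf.one_zero.{u} E n η hη hη1 hb'
  obtain ⟨c₂, hc₂, N₂, h2⟩ := Szf.subfields.{u} E n η η' hη hη1 hη' hb'
    (Szf.x_mean E F₀ hF₀ hFL₀ hη' hs') hs'
  refine ⟨min (min c₁ c₂) 1, by positivity, N₁ + N₂, ?_⟩
  intro L _ _ _ hL hreal F hF hFL A hA δ T M hδ hδ1 hT hM hB K ρ hρ hzero
  obtain ⟨hρ1, hρ2⟩ := hρ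
  have hpos := pos_of_rect (by positivity) (min_le_right _ _) hδ hδ1 hT hM hρ1
  have hz : F K ρ = 0 := zero_of_completed K (hA K) hpos hzero
  have hLT := Zfr.two_le_Lg hδ hδ1 hT hM
  have hLT' : 2 ≤ Real.log (M * (T + 2) / δ) := hLT
  have hL0 := Zfr.two_le_Lg hδ hδ1 (le_refl (0 : ℝ)) hM
  have hLL : Zfr.Lg M 0 δ ≤ Zfr.Lg M T δ := by
    unfold Zfr.Lg
    refine Real.log_le_log (by positivity) ?_
    gcongr
  have hwid : ∀ c : ℝ, min (min c₁ c₂) 1 ≤ c →
      min (min c₁ c₂) 1 * δ / Real.log (M * (T + 2) / δ) ≤ c * δ / Zfr.Lg M T δ := fun c hc =>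
    div_le_div_of_nonneg_right (mul_le_mul_of_nonneg_right hc hδ.le) (by linarith)
  have hN1 : ((N₁ : ℕ) : ℝ) ≤ ((N₁ + N₂ : ℕ) : ℝ) := by exact_mod_cast Nat.le_add_right _ _
  have hN2 : ((N₂ : ℕ) : ℝ) ≤ ((N₁ + N₂ : ℕ) : ℝ) := by exact_mod_cast Nat.le_add_left _ _
  have hdeg : Module.finrank ℚ K ≤ n := by
    rw [← hL]
    exact Nat.le_of_dvd Module.finrank_pos ⟨_, (Module.finrank_mul_finrank ℚ K L).symm⟩
  obtain ⟨β, hβ⟩ := h1 K hdeg (F K) (hF K) (hFL K) δ T M hδ hδ1 hT hM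
    (fun s hs hs' => (hB K).bound s hs (hs'.trans
      (mul_le_mul_of_nonneg_right hN1 (by linarith)))) (hB K).count
  have h3 := (hβ ρ (by
    have := hwid c₁ ((min_le_left _ _).trans (min_le_left _ _))
    linarith) hρ2 hz).1
  rw [h3] at hz hρ1
  rw [Complex.ofReal_re] at hρ1
  refine h2 L hL hreal F hF hFL δ M hδ hδ1 hM (fun K => (hB K).disc) (fun K s hs hs' =>
    (hB K).bound s hs (hs'.trans ?_)) (fun K => (hB K).count) K β ?_ hz
  · have h4 : (0 : ℝ) ≤ ((N₁ + N₂ : ℕ) : ℝ) := Nat.cast_nonneg _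
    nlinarith
  · have h5 := hwid c₂ ((min_le_left _ _).trans (min_le_right _ _))
    have h6 : c₂ * δ / Zfr.Lg M T δ ≤ c₂ * δ / Zfr.Lg M 0 δ :=
      div_le_div_of_nonneg_left (by positivity) (by linarith) hLL
    linarith

end Pool.Agent.Lib.MP_fb225e_nt.Old.SubfieldZeros
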