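import Mathlib
import Pool.Agent.Lib.MP_fb225e_nt.Fam.Symmetric
import Pool.Agent.Lib.MP_fb225e_nt.Fam.Completed

/-!
# MP_fb225e_nt: number fields with symmetric Galois group

Let `E` be an elliptic curve over `ℚ` and `K` a number field of degree `n ≥ 3` whose Galois closure
has Galois group `S_n`: the automorphisms of `ℂ` induce all permutations of the embeddings of `K`.
Suppose that the pairs `(E, ℚ)` and `(E, K)` are continuable. Then `Λ(E/K, s)` and `Λ(E/ℚ, s)` have
the same order of vanishing at every `ρ ≠ 3/2` with `Re ρ ≥ 3/2`, and their orders of vanishing at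
`ρ = 3/2` differ by at most one.
-/

namespace Pool.Agent.Results.MP_fb225e_nt.SymmetricFields

open Pool.Agent.MPfb225e.Fam

theorem result (E : WeierstrassCurve ℚ) [E.IsElliptic]
    (K : Type) [Field K] [NumberField K] (hn : 3 ≤ Module.finrank ℚ K)
    (hS : ∀ π : Equiv.Perm (K →+* ℂ), ∃ τ : ℂ ≃+* ℂ, ∀ φ : K →+* ℂ, (τ : ℂ →+* ℂ).comp φ = π φ)
    (F F₀ : ℂ → ℂ) (hF : Differentiable ℂ F) (hF₀ : Differentiable ℂ F₀)
    (hFL : ∀ s : ℂ, 3 / 2 < s.re → F s = (E.baseChange K).LSeries s)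
    (hFL₀ : ∀ s : ℂ, 3 / 2 < s.re → F₀ s = E.LSeries s)
    (A A₀ : ℝ) (hA : 0 < A) (hA₀ : 0 < A₀) :
    (∀ ρ : ℂ, 3 / 2 ≤ ρ.re → ρ ≠ 3 / 2 →
      analyticOrderAt (completed K A F) ρ = analyticOrderAt (completed ℚ A₀ F₀) ρ) ∧
    analyticOrderAt (completed K A F) (3 / 2) ≤ analyticOrderAt (completed ℚ A₀ F₀) (3 / 2) + 1 ∧
    analyticOrderAt (completed ℚ A₀ F₀) (3 / 2) ≤ analyticOrderAt (completed K A F) (3 / 2) + 1 := by
  obtain ⟨L, _, _, _, hKL, hsurj⟩ := exists_galois K hS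
  have e0 : @WeierstrassCurve.baseChange ℚ _ E ℚ _ DivisionRing.toRatAlgebra = E := by
    have : @algebraMap ℚ ℚ _ _ DivisionRing.toRatAlgebra = RingHom.id ℚ := Subsingleton.elim _ _
    rw [WeierstrassCurve.baseChange, this, WeierstrassCurve.map_id]
  have hne : ∀ s : ℂ, 3 / 2 < s.re → F s ≠ 0 := fun s hs => ne_zero_of_lt E K hFL hs
  have hne₀ : ∀ s : ℂ, 3 / 2 < s.re → F₀ s ≠ 0 := fun s hs =>
    ne_zero_of_lt E ℚ (fun s hs => by rw [hFL₀ s hs, e0]) hs
  have hder := der_le K L hKL hn hsurj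
  have hedge := fun t => edge_rat E K L hKL F F₀ hF hF₀ hFL hFL₀ t
  have hk : ∀ t, 0 ≤ kap t := fun t => by
    unfold kap
    split_ifs
    · norm_num
    · positivity
  have hbound : ∀ t, |(ord F t : ℝ) - ord F₀ t| ≤ 4 * kap t * (3 / 8) := fun t =>
    (hedge t).trans (mul_le_mul_of_nonneg_left hder (mul_nonneg (by norm_num) (hk t)))
  have hord := fun t => order_eq hne t
  have hord₀ := fun t => order_eq hne₀ t
  refine ⟨fun ρ hρ hρ2 => ?_, ?_⟩
  · have hpos : 0 < ρ.re := by linarith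
    rw [order_completed K hA hF hpos, order_completed ℚ hA₀ hF₀ hpos]
    rcases hρ.lt_or_eq with h | h
    · rw [(hF.analyticAt ρ).analyticOrderAt_eq_zero.2 (hne ρ h),
        (hF₀.analyticAt ρ).analyticOrderAt_eq_zero.2 (hne₀ ρ h)]
    · have hρ' : ρ = 3 / 2 + ρ.im * Complex.I := by
        apply Complex.ext
        · simp [← h]
        · simp
      have ht : ρ.im ≠ 0 := by
        intro h0
        apply hρ2
        rw [hρ', h0]
        simp
      have h1 := hbound ρ.im
      have h2 : 4 * kap ρ.im * (3 / 8) < 1 := by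
        unfold kap
        rw [if_neg ht]
        have : 4 * (2 / Real.pi) * (3 / 8) = 3 / Real.pi := by ring
        rw [this, div_lt_one Real.pi_pos]
        exact Real.pi_gt_three
      have h3 : ord F ρ.im = ord F₀ ρ.im := by
        have h4 : |((ord F ρ.im : ℤ) : ℝ) - ((ord F₀ ρ.im : ℤ) : ℝ)| < 1 := by
          push_cast
          exact lt_of_le_of_lt h1 h2
        rw [← Int.cast_sub, ← Int.cast_abs] at h4
        have h5 : |(ord F ρ.im : ℤ) - ord F₀ ρ.im| < 1 := by exact_mod_cast h4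
        rw [Int.abs_lt_one_iff] at h5
        omega
      rw [hρ', hord, hord₀, h3]
  · have hpos : 0 < (3 / 2 : ℂ).re := by norm_num
    rw [order_completed K hA hF hpos, order_completed ℚ hA₀ hF₀ hpos]
    have e1 : (3 / 2 : ℂ) = 3 / 2 + ((0 : ℝ) : ℂ) * Complex.I := by simp
    rw [e1, hord, hord₀]
    have h1 := hbound 0
    have h2 : 4 * kap 0 * (3 / 8) < 2 := by
      unfold kap
      rw [if_pos rfl]
      norm_num
    have h4 : |((ord F 0 : ℤ) : ℝ) - ((ord F₀ 0 : ℤ) : ℝ)| < 2 := by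
      push_cast
      exact lt_of_le_of_lt h1 h2
    rw [← Int.cast_sub, ← Int.cast_abs] at h4
    have h5 : |(ord F 0 : ℤ) - ord F₀ 0| < 2 := by exact_mod_cast h4
    rw [abs_lt] at h5
    constructor
    · have : ord F 0 ≤ ord F₀ 0 + 1 := by omega
      exact_mod_cast this
    · have : ord F₀ 0 ≤ ord F 0 + 1 := by omega
      exact_mod_cast this

end Pool.Agent.Results.MP_fb225e_nt.SymmetricFields
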