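import Mathlib
import Pool.Agent.Lib.MP_fb225e_nt.Tw.SubUnif

/-!
# MP_fb225e_nt: the classical zero-free region, without exceptional zeros, over all the subfields
of a Galois field with strongly real group, uniformly in the elliptic curve and its twists

Let `E` run over the elliptic curves over `ℚ`, `d` over the nonzero integers, and `L` over the
Galois extensions of `ℚ` of degree `n` such that every element of the Galois group is a product of
two elements of square 1 (for instance the symmetric groups) and such that `L(E_d/K, s)` is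
continuable for all `K ⊂ L`, where `E_d` is the quadratic twist. Let `M` bound the discriminant of
(an integral model of) `E`, `|d|`, the L-functions near the edge `s = 3/2`, the discriminants of the
`K`, and the error terms of the counts of ideals, and put `r = δ / log (M (T + 2) / δ)`. Then no
`L(E_d/K, s)`, `K ⊂ L`, has a zero with `Re s > 3/2 - c r`, `|Im s| ≤ T`, unless the
`x_p = a_p(E) / √p` are distributed in one of two ways at some scale `ε` between `c r` and `r`. The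
constant `c` depends only on `n` (and on the parameters `η`, `η'` of the two distributions), neither
on `E` nor on `L` nor on `d`. For given `E` both distributions contradict the Sato-Tate law as soon
as `r` is small, that is, if `M` is large (`M` may be enlarged); it is not used.

Proof: let `ψ_d` be the quadratic character of the twist, `y_p = ψ_d(p) x_p`; for the places `v` of
`K` of norm a prime not dividing `6 d Δ_E` the curve `E_d` has `x_v = y_{N v}`; the other places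
have weight `O(1 + n log |d Δ_E|)`. By a Fejer kernel argument there is at most one zero of
`L(E_d/K, s)` in the region, real and simple, `3/2 - t_K` say. Let `𝔼` be the mean value over the
primes with weights `ε p^(-1-ε) log p`, and `c_K(p)` the number of primes of `K` of norm `p`. A
two-sided version of the local lemma of Landau gives `𝔼[c_K y] = -ε/(ε + t_K) + O(κ)`, uniformly. By
the pigeonhole principle there is a scale `ε` comparable to `r` such that no `t_K`, `K ⊂ L`, is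
comparable to `ε`, hence `𝔼[c_K y]` is `-1 + O(κ)` or `O(κ)`. Now `c_K(p)` is the number of
embeddings of `K` fixed by the Frobenius `σ_p`, so that `𝔼[c_K y] = -∑_σ w(σ) fix_K(σ)` with
`w(σ) = -𝔼[y; σ_p = σ]`. By compactness and a theorem on groups, the set of `K` with an exceptional
zero is that of the `K ⊃ K₀` or that of the `K` not containing `K₀`, for some `K₀` with
`[K₀ : ℚ] ≤ 2`. So it remains to show that there is no exceptional zero for `ℚ` and for the
quadratic field `K₀`. For `ℚ` it would give `𝔼[y] = -1`, hence `𝔼[(1 + y)²] ≤ 𝔼[y²] - 1`; for `K₀`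
it would give `𝔼[c y] = -1`, `𝔼[c] = 1`, `𝔼[c²] ≤ 2`, `𝔼[y] = 0`, hence
`𝔼[(c - 1 + y)²] ≤ 𝔼[y²] - 1`: a contradiction, as `y_p`, and then `x_p`, would be close to integers
for most primes.
-/

namespace Pool.Agent.Results.MP_fb225e_nt.UniformSubfieldZeros

open Pool.Agent.MPfb225e NumberField Filter Topology

universe u

/-- The completed L-function `A ^ (s/2) ((2π)^(-s) Γ(s)) ^ [K:ℚ] F(s)`, where `F` is the entire
continuation of the L-series and `A` is the conductor (any positive real). -/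
noncomputable def completed (K : Type u) [Field K] [NumberField K] (A : ℝ) (F : ℂ → ℂ) (s : ℂ) :
    ℂ :=
  (A : ℂ) ^ (s / 2) *
    ((2 * (Real.pi : ℂ)) ^ (-s) * Complex.Gamma s) ^ (Module.finrank ℚ K) * F s

/-- `M` bounds `F` on `Re s ≥ 3/2 - δ`, `|Im s| ≤ H`, the discriminant of `K`, and the error term,
of exponent `1 - δ`, of the count of ideals of `K`. -/
structure Bounded (K : Type u) [Field K] [NumberField K] (F : ℂ → ℂ) (δ H M : ℝ) : Prop where
  disc : (|discr K| : ℝ) ≤ M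
  bound : ∀ s : ℂ, 3 / 2 - δ ≤ s.re → |s.im| ≤ H → ‖F s‖ ≤ M
  count : ∃ κ : ℝ, ∀ x : ℝ, 1 ≤ x →
    |(Nat.card {J : Ideal (𝓞 K) // J ≠ ⊥ ∧ (Ideal.absNorm J : ℝ) ≤ x} : ℝ) - κ * x| ≤
      M * x ^ (1 - δ)

/-- `δ / log (M (T + 2) / δ)` -/
noncomputable def width (δ T M : ℝ) : ℝ := δ / Real.log (M * (T + 2) / δ)

/-- Every element is a product of two elements of square 1. -/
def StronglyReal (G : Type u) [Group G] : Prop :=
  ∀ g : G, ∃ u v : G, u * u = 1 ∧ v * v = 1 ∧ g = u * v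

/-- The quadratic twist `y² = x³ + d b₂ x² + 8 d² b₄ x + 16 d³ b₆` of `E` by `d`, that is
`d Y² = X³ + b₂ X² + 8 b₄ X + 16 b₆` (where `E` is `Y² = X³ + b₂ X² + 8 b₄ X + 16 b₆`). -/
def twist (E : WeierstrassCurve ℚ) (d : ℚ) : WeierstrassCurve ℚ :=
  ⟨0, d * E.b₂, 0, 8 * d ^ 2 * E.b₄, 16 * d ^ 3 * E.b₆⟩

/-- The Legendre symbol `(d/p)` for `p > 2`, and `0` for `p = 2`. -/
def chi (d : ℤ) (p : ℕ) : ℤ := if Odd p then jacobiSym d p else 0

/-- `a_p / √p` -/
noncomputable def xp (E : WeierstrassCurve ℚ) (p : ℕ) : ℝ := (E.LFunction p : ℝ) / √p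

/-- The sum of `ε p ^ (-1-ε) log p` over the primes `p` with `(d/p) x_p < -(2 - η)`. -/
noncomputable def bias (E : WeierstrassCurve ℚ) (d : ℤ) (η ε : ℝ) : ℝ :=
  ε * ∑' p : Nat.Primes, {p : Nat.Primes | (chi d p : ℝ) * xp E p < -(2 - η)}.indicator
    (fun p : Nat.Primes => Real.log p * (p : ℝ) ^ (-(1 + ε))) p

/-- The sum of `ε p ^ (-1-ε) log p (x_p² - ‖x_p‖²)` over the primes `p`, where `‖y‖` is the distance
of `y` to the nearest integer. -/
noncomputable def spread (E : WeierstrassCurve ℚ) (ε : ℝ) : ℝ :=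
  ε * ∑' p : Nat.Primes, Real.log p * (p : ℝ) ^ (-(1 + ε)) *
    (xp E p ^ 2 - |xp E p - round (xp E p)| ^ 2)

theorem spread_eq (E : WeierstrassCurve ℚ) (ε : ℝ) :
    spread E ε = ε * ∑' p, Szf.lp ε p * ((1 * Fam.lam E p) ^ 2 - Szf.dz (1 * Fam.lam E p)) := by
  simp only [one_mul]
  rfl

theorem zero_of_completed (K : Type u) [Field K] [NumberField K] {A : ℝ} (hA : 0 < A) {F : ℂ → ℂ}
    {s : ℂ} (hs : 0 < s.re) (h : completed K A F s = 0) : F s = 0 :=
  (mul_eq_zero.mp h).resolve_left (Fam.pre_ne_zero _ hA hs)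

/-- base change of a twist -/
theorem baseChange_twist (E E' : WeierstrassCurve ℚ) (d : ℤ) (C : WeierstrassCurve.VariableChange ℚ)
    (h : C • E' = twist E d) (K : Type u) [Field K] [NumberField K] :
    ∃ C' : WeierstrassCurve.VariableChange K,
      C' • E'.baseChange K = Tw.twist (E.baseChange K) (d : K) := by
  refine ⟨C.map (algebraMap ℚ K), ?_⟩
  have h1 : (C • E').map (algebraMap ℚ K) = (twist E d).map (algebraMap ℚ K) := by rw [h]
  rw [← WeierstrassCurve.map_variableChange] at h1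
  rw [WeierstrassCurve.baseChange, h1]
  unfold twist Tw.twist
  have e2 : (E.baseChange K).b₂ = algebraMap ℚ K E.b₂ := WeierstrassCurve.map_b₂ _ _
  have e4 : (E.baseChange K).b₄ = algebraMap ℚ K E.b₄ := WeierstrassCurve.map_b₄ _ _
  have e6 : (E.baseChange K).b₆ = algebraMap ℚ K E.b₆ := WeierstrassCurve.map_b₆ _ _
  rw [e2, e4, e6]
  ext <;> simp [WeierstrassCurve.map]

/-- the integral model -/
theorem int_model (W : WeierstrassCurve ℤ) :
    (1 : WeierstrassCurve.VariableChange ℚ) • (W.baseChange ℚ) = W.map (Int.castRingHom ℚ) := by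
  rw [one_smul, WeierstrassCurve.baseChange]
  congr 1

/-- the numbers `y_p` -/
noncomputable def yp (W : WeierstrassCurve ℤ) (d : ℤ) (p : ℕ) : ℝ := (chi d p : ℝ) * Fam.yy W p

theorem abs_chi_le (d : ℤ) (p : ℕ) : |(chi d p : ℝ)| ≤ 1 := by
  exact_mod_cast Tw.abs_psi_le d p

theorem abs_yp_le (W : WeierstrassCurve ℤ) (d : ℤ) (p : ℕ) : |yp W d p| ≤ 2 := by
  unfold yp
  rw [abs_mul]
  exact (mul_le_of_le_one_left (abs_nonneg _) (abs_chi_le d p)).trans (Fam.abs_yy_le W p)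

/-- `yy` is `x_p` or `0` -/
theorem yy_cases (W : WeierstrassCurve ℤ) (p : Nat.Primes) :
    Fam.yy W p = 0 ∨ Fam.yy W p = Fam.lam (W.baseChange ℚ) p := by
  by_cases h : (p : ℕ).Prime ∧ 3 < (p : ℕ) ∧ ((W.Δ : ℤ) : ZMod p) ≠ 0
  · right
    exact (Fam.lam_eq_yy (W.baseChange ℚ) W 1 (int_model W) h.1 h.2.1 h.2.2).symm
  · left
    unfold Fam.yy
    rw [if_neg h]

theorem elliptic (W : WeierstrassCurve ℤ) (hW : W.Δ ≠ 0) : (W.baseChange ℚ).IsElliptic := by
  refine ⟨?_⟩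
  rw [WeierstrassCurve.baseChange, WeierstrassCurve.map_Δ, isUnit_iff_ne_zero]
  simpa using hW

theorem agree (W : WeierstrassCurve ℤ) (hW : W.Δ ≠ 0) (d : ℤ) (E' : WeierstrassCurve ℚ)
    (C : WeierstrassCurve.VariableChange ℚ) (hC : C • E' = twist (W.baseChange ℚ) d) (K : Type u)
    [Field K] [NumberField K] : Tw.Agree K (E'.baseChange K) (d * W.Δ) (yp W d) := by
  intro v hp h3 hQ
  obtain ⟨C', hC'⟩ := baseChange_twist (W.baseChange ℚ) E' d C hC K
  have hd : ¬ ((Fam.N v : ℤ) ∣ d) := fun h => hQ (h.mul_right _)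
  have hΔ : ((W.Δ : ℤ) : ZMod (Fam.N v)) ≠ 0 := by
    intro h
    rw [ZMod.intCast_zmod_eq_zero_iff_dvd] at h
    exact hQ (h.mul_left _)
  rw [Tw.cmp_good (W.baseChange ℚ) W 1 (int_model W) (E'.baseChange K) d C' hC' v hp rfl h3 hd hΔ]
  obtain ⟨h7, h8⟩ := Fam.coeff_eq_yy (W.baseChange ℚ) W 1 (int_model W) v rfl hp h3 hΔ
  have h11 : Zfr.xK ((W.baseChange ℚ).baseChange K) v = Fam.yy W (Fam.N v) := by
    unfold Zfr.xK
    rw [if_neg h7, h8]
  rw [h11]
  rfl

theorem bias_le (W : WeierstrassCurve ℤ) (d : ℤ) {η ε : ℝ} (hη1 : η ≤ 1) (hε : 0 < ε) :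
    Tw.bs (yp W d) η ε ≤ bias (W.baseChange ℚ) d η ε := by
  unfold Tw.bs bias
  refine mul_le_mul_of_nonneg_left ?_ hε.le
  have hs := Szf.summable_lp hε
  refine (hs.indicator _).tsum_le_tsum (fun p => ?_) (hs.indicator _)
  refine Set.indicator_le_indicator_of_subset ?_ (fun p => Szf.lp_nonneg ε p) p
  intro q hq
  have hq' : yp W d q < -2 + η := hq
  show (chi d q : ℝ) * xp (W.baseChange ℚ) q < -(2 - η)
  unfold yp at hq'
  rcases yy_cases W q with h | h
  · rw [h, mul_zero] at hq'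
    linarith
  · rw [h] at hq'
    have e : xp (W.baseChange ℚ) q = Fam.lam (W.baseChange ℚ) q := rfl
    rw [e]
    linarith

theorem spread_le (W : WeierstrassCurve ℤ) (hW : W.Δ ≠ 0) (d : ℤ) {ε : ℝ} (hε : 0 < ε) :
    ε * ∑' p : Nat.Primes, Szf.lp ε p * ((1 * yp W d p) ^ 2 - Szf.dz (1 * yp W d p)) ≤
      spread (W.baseChange ℚ) ε := by
  rw [spread_eq]
  refine mul_le_mul_of_nonneg_left ?_ hε.le
  have hell := elliptic W hW
  obtain ⟨B, C, hC2, hlam, -, -⟩ := Szf.lam_data.{0} (W.baseChange ℚ)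
  have hsum : ∀ z : Nat.Primes → ℝ, (∀ p, |z p| ≤ C) → Summable fun p : Nat.Primes =>
      Szf.lp ε p * ((1 * z p) ^ 2 - Szf.dz (1 * z p)) := by
    intro z hz
    refine Szf.summable_lp_mul hε (C := C ^ 2) fun p => ?_
    have e1 := Szf.dz_le (1 * z p) 0
    rw [Int.cast_zero, zero_add] at e1
    have e2 := Szf.dz_nonneg (1 * z p)
    have e3 : (1 * z p) ^ 2 ≤ C ^ 2 := by
      rw [one_mul, ← sq_abs]
      exact pow_le_pow_left₀ (abs_nonneg _) (hz p) 2
    rw [abs_of_nonneg (by linarith)]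
    linarith
  refine (hsum (fun p => yp W d p) (fun p => (abs_yp_le W d p).trans hC2)).tsum_le_tsum
    (fun p => ?_) (hsum (fun p => Fam.lam (W.baseChange ℚ) p) fun p => hlam p p.2)
  refine mul_le_mul_of_nonneg_left ?_ (Szf.lp_nonneg ε p)
  refine (Tw.spread_le (chi d p : ℝ) (Fam.yy W p) (Tw.psi_three d p)).trans ?_
  rcases yy_cases W p with h | h
  · rw [h]
    have h2 := Szf.dz_le (1 * Fam.lam (W.baseChange ℚ) p) 0
    rw [Int.cast_zero, zero_add] at h2
    have h3 := Szf.dz_nonneg (1 * (0 : ℝ))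
    have h4 : (1 * (0 : ℝ)) ^ 2 = 0 := by ring
    linarith
  · rw [h]

theorem result (n : ℕ) (η η' : ℝ) (hη : 0 < η) (hη1 : η ≤ 1) (hη' : 0 < η') :
    ∃ c : ℝ, 0 < c ∧ ∃ N : ℕ, ∀ W : WeierstrassCurve ℤ, W.Δ ≠ 0 →
      ∀ (d : ℤ) (E' : WeierstrassCurve ℚ), d ≠ 0 →
      (∃ C : WeierstrassCurve.VariableChange ℚ, C • E' = twist (W.baseChange ℚ) d) →
      ∀ (L : Type u) [Field L] [NumberField L] [IsGalois ℚ L],
      Module.finrank ℚ L = n → StronglyReal (L ≃ₐ[ℚ] L) →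
      ∀ F : IntermediateField ℚ L → ℂ → ℂ, (∀ K, Differentiable ℂ (F K)) →
      (∀ K : IntermediateField ℚ L, ∀ s : ℂ, 3 / 2 < s.re → F K s = (E'.baseChange K).LSeries s) →
      ∀ A : IntermediateField ℚ L → ℝ, (∀ K, 0 < A K) →
      ∀ δ T M : ℝ, 0 < δ → δ ≤ 1 / 2 → 0 ≤ T → 2 ≤ M → |(d : ℝ)| ≤ M → |(W.Δ : ℝ)| ≤ M →
      (∀ K : IntermediateField ℚ L, Bounded K (F K) δ (N * (T + 1)) M) →
      (∃ ε : ℝ, c * width δ T M ≤ ε ∧ ε ≤ width δ T M ∧
        η / (16 * n) < bias (W.baseChange ℚ) d η ε) ∨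
      (∃ ε : ℝ, c * width δ T M ≤ ε ∧ ε ≤ width δ T M ∧
        1 - η' < spread (W.baseChange ℚ) ε) ∨
      ∀ K : IntermediateField ℚ L, ∀ ρ : ℂ, 3 / 2 - c * width δ T M < ρ.re → |ρ.im| ≤ T →
        completed K (A K) (F K) ρ ≠ 0 := by
  obtain ⟨c₁, hc₁, N₁, h1⟩ := Tw.one_zero_u.{u} n η hη hη1
  obtain ⟨c₂, hc₂, N₂, h2⟩ := Tw.subfields_u.{u} n η η' hη hη1 hη'
  refine ⟨min (min c₁ c₂) 1, by positivity, N₁ + N₂, ?_⟩
  set c : ℝ := min (min c₁ c₂) 1 with hcdef
  have hc0 : 0 < c := by positivity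
  have hca : c ≤ c₁ := (min_le_left _ _).trans (min_le_left _ _)
  have hcb : c ≤ c₂ := (min_le_left _ _).trans (min_le_right _ _)
  have hc1 : c ≤ 1 := min_le_right _ _
  intro W hW d E' hd hE' L _ _ _ hL hreal F hF hFL A hA δ T M hδ hδ1 hT hM hdM hΔM hB
  obtain ⟨C, hC⟩ := hE'
  have hLT := Zfr.two_le_Lg hδ hδ1 hT hM
  have hr : width δ T M = δ / Zfr.Lg M T δ := rfl
  have hLpos : 0 < Zfr.Lg M T δ := by linarith
  have hr0 : 0 < width δ T M := by rw [hr]; positivity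
  have hr1 : width δ T M ≤ 1 := by
    rw [hr, div_le_one hLpos]
    linarith
  by_cases hbias : ∃ ε : ℝ, c * width δ T M ≤ ε ∧ ε ≤ width δ T M ∧
        η / (16 * n) < bias (W.baseChange ℚ) d η ε
  · exact Or.inl hbias
  by_cases hspr : ∃ ε : ℝ, c * width δ T M ≤ ε ∧ ε ≤ width δ T M ∧
        1 - η' < spread (W.baseChange ℚ) ε
  · exact Or.inr (Or.inl hspr)
  right
  right
  push Not at hbias hspr
  have hscale : ∀ c' : ℝ, c ≤ c' → ∀ ε : ℝ, c' * δ / Zfr.Lg M T δ ≤ ε →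
      c * width δ T M ≤ ε ∧ 0 < ε := by
    intro c' hc' ε hε
    have h3 : c * width δ T M ≤ c' * δ / Zfr.Lg M T δ := by
      rw [hr, ← mul_div_assoc]
      exact div_le_div_of_nonneg_right (mul_le_mul_of_nonneg_right hc' hδ.le) hLpos.le
    have h4 : 0 < c * width δ T M := by positivity
    exact ⟨h3.trans hε, by linarith⟩
  have hb1 : ∀ c' : ℝ, c ≤ c' → ∀ ε : ℝ, c' * δ / Zfr.Lg M T δ ≤ ε → ε ≤ δ / Zfr.Lg M T δ →
      Tw.bs (yp W d) η ε ≤ η / (16 * n) := by
    intro c' hc' ε h3 h4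
    obtain ⟨h5, h6⟩ := hscale c' hc' ε h3
    exact (bias_le W d hη1 h6).trans (hbias ε h5 h4)
  have hs1 : ∀ c' : ℝ, c ≤ c' → ∀ ε : ℝ, c' * δ / Zfr.Lg M T δ ≤ ε → ε ≤ δ / Zfr.Lg M T δ →
      ε * ∑' p : Nat.Primes, Szf.lp ε p * ((1 * yp W d p) ^ 2 - Szf.dz (1 * yp W d p)) ≤
        1 - η' := by
    intro c' hc' ε h3 h4
    obtain ⟨h5, h6⟩ := hscale c' hc' ε h3
    exact (spread_le W hW d h6).trans (hspr ε h5 h4)
  have hQ0 : d * W.Δ ≠ 0 := mul_ne_zero hd hW
  have hQM : |((d * W.Δ : ℤ) : ℝ)| ≤ M ^ 2 := by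
    push_cast
    rw [abs_mul, sq]
    exact mul_le_mul hdM hΔM (abs_nonneg _) (by linarith)
  have hag : ∀ K : IntermediateField ℚ L,
      Tw.Agree K (E'.baseChange K) (d * W.Δ) (yp W d) := fun K => agree W hW d E' C hC K
  -- the larger bound
  set M' : ℝ := M * (T + 2) / 2 with hM'
  have hMM : M ≤ M' := by
    rw [hM', le_div_iff₀ (by norm_num)]
    nlinarith
  have hLg : Zfr.Lg M' 0 δ = Zfr.Lg M T δ := by
    unfold Zfr.Lg
    congr 1
    rw [hM']
    ring
  intro K ρ hρ1 hρ2 hzero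
  have hpos : 0 < ρ.re := by
    have : c * width δ T M ≤ 1 := by nlinarith
    linarith
  have hz : F K ρ = 0 := zero_of_completed K (hA K) hpos hzero
  have hN1 : ((N₁ : ℕ) : ℝ) ≤ ((N₁ + N₂ : ℕ) : ℝ) := by exact_mod_cast Nat.le_add_right _ _
  have hN2 : ((N₂ : ℕ) : ℝ) ≤ ((N₁ + N₂ : ℕ) : ℝ) := by exact_mod_cast Nat.le_add_left _ _
  have hdeg : Module.finrank ℚ K ≤ n := by
    rw [← hL]
    exact Nat.le_of_dvd Module.finrank_pos ⟨_, (Module.finrank_mul_finrank ℚ K L).symm⟩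
  obtain ⟨β, hβ⟩ := h1 K hdeg (E'.baseChange K) (d * W.Δ) (yp W d) hQ0 (hag K) (F K) (hF K)
    (hFL K) δ T M hδ hδ1 hT hM hQM (fun s hs hs' => (hB K).bound s hs (hs'.trans
      (mul_le_mul_of_nonneg_right hN1 (by linarith)))) (hB K).count (hb1 c₁ hca)
  have hwid : ∀ c' : ℝ, c ≤ c' → 3 / 2 - c' * δ / Zfr.Lg M T δ < ρ.re := by
    intro c' hc'
    have h3 : c * width δ T M ≤ c' * δ / Zfr.Lg M T δ := by
      rw [hr, ← mul_div_assoc]
      exact div_le_div_of_nonneg_right (mul_le_mul_of_nonneg_right hc' hδ.le) hLpos.le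
    linarith
  have h3 := (hβ ρ (hwid c₁ hca) hρ2 hz).1
  have h4 := hwid c₂ hcb
  rw [h3] at hz h4
  rw [Complex.ofReal_re, ← hLg] at h4
  have hcnt : ∀ K : IntermediateField ℚ L, Szf.Cnt K δ M' := by
    intro K
    obtain ⟨κ, hκ⟩ := (hB K).count
    refine ⟨κ, fun x hx => (hκ x hx).trans ?_⟩
    exact mul_le_mul_of_nonneg_right hMM (by positivity)
  refine h2 L hL hreal (d * W.Δ) (yp W d) hQ0 (abs_yp_le W d) (fun K => E'.baseChange K) hag F hF
    hFL δ M' hδ hδ1 (hM.trans hMM) (hQM.trans (pow_le_pow_left₀ (by linarith) hMM 2))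
    (fun K => (hB K).disc.trans hMM) (fun K s hs hs' => ((hB K).bound s hs (hs'.trans ?_)).trans
      hMM) hcnt ?_ ?_ K β h4 hz
  · have h5 : (0 : ℝ) ≤ ((N₁ + N₂ : ℕ) : ℝ) := Nat.cast_nonneg _
    nlinarith
  · rw [hLg]
    exact hb1 c₂ hcb
  · rw [hLg]
    exact hs1 c₂ hcb

end Pool.Agent.Results.MP_fb225e_nt.UniformSubfieldZeros
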