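import Mathlib
import Pool.Agent.Lib.MP_fb225e_nt.Zd.Main
import Pool.Agent.Lib.MP_fb225e_nt.Fam.Completed

/-!
# MP_fb225e_nt: a log-free zero density estimate near the edge for every continuable `L(W/K, s)`

Let `K` be a number field of degree `n` and let `W` be an elliptic curve over `K` such that the
L-series of `W` has an entire continuation `F`. If `M` bounds `|F|` on the part `|Im s| ≤ T + 1` of the
half-plane `Re s ≥ 3/2 - δ`, then for `0 ≤ λ ≤ δ / C` there are at most
`C * (M (T + 2) / δ) ^ (C λ / δ)` zeros with `Re s ≥ 3/2 - λ`, `|Im s| ≤ T`; the constant `C` depends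
on `n` only. For instance, if `F` has polynomial growth on `Re s ≥ 3/2 - δ` then the number of these
zeros is `O(T ^ (C' λ))`, without a power of `log T`. Only continuability is used.

Proof. Put `Λ = log (M (T + 2) / δ) / δ`, `η = max (λ, 1/Λ)`, `s₀ = 3/2 + η + it`. Landau's local lemma
gives `F'/F(s) = ∑_j (s - ρ_j)⁻¹ + O(Λ)` on a disc of radius `≫ δ` around `s₀` and
`∑_j |s₀ - ρ_j|⁻² ≪ (1 + η Λ) / η²`. If there is a zero with distance at most `3 η` from `s₀` then, by
Turán's second main theorem, one of the power sums `∑_j (s₀ - ρ_j)^(-q)`, `m < q ≤ 2m`,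
`m ≍ 1 + η Λ`, is at least `C^(-m) η^(-q)`, so that the sum `∑_p a_p (log p)^(q-1) p^(-1-η-it) / (q-1)!`
over the primes `p > exp (c m / η)`, `a_p = log p ∑_{Nv = p} x_v`, is at least as large. This is
impossible for most `t`: the mean square over `|t| ≤ T + 1` is `≪ C^m η^(1-2q)`, because
`|a_p| ≤ 2n log p` and because there are `≪ y/(T log y)` primes in `[y, y(1 + 1/T)]` for `y ≥ T²`
(Brun-Titchmarsh inequality, proved with Selberg's sieve).
-/

namespace Pool.Agent.Lib.MP_fb225e_nt.Old.ZeroDensity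

open Pool.Agent.MPfb225e NumberField Filter Topology

universe u

/-- The completed L-function `A ^ (s/2) ((2π)^(-s) Γ(s)) ^ [K:ℚ] F(s)`, where `F` is the entire
continuation of the L-series and `A` is the conductor (any positive real). -/
noncomputable def completed (K : Type u) [Field K] [NumberField K] (A : ℝ) (F : ℂ → ℂ) (s : ℂ) :
    ℂ :=
  (A : ℂ) ^ (s / 2) *
    ((2 * (Real.pi : ℂ)) ^ (-s) * Complex.Gamma s) ^ (Module.finrank ℚ K) * F s

theorem completed_eq (K : Type u) [Field K] [NumberField K] (A : ℝ) (F : ℂ → ℂ) :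
    completed K A F = Fam.completed K A F := rfl

theorem order_eq (K : Type u) [Field K] [NumberField K] {A : ℝ} (hA : 0 < A) {F : ℂ → ℂ}
    (hF : Differentiable ℂ F) {s : ℂ} (hs : 0 < s.re) :
    analyticOrderNatAt (completed K A F) s = analyticOrderNatAt F s := by
  unfold analyticOrderNatAt
  rw [completed_eq, Fam.order_completed K hA hF hs]

theorem result (n : ℕ) : ∃ C : ℝ, 0 < C ∧ ∀ (K : Type u) [Field K] [NumberField K]
    (W : WeierstrassCurve K) [W.IsElliptic], Module.finrank ℚ K = n →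
    ∀ F : ℂ → ℂ, Differentiable ℂ F → (∀ s : ℂ, 3 / 2 < s.re → F s = W.LSeries s) →
    ∀ A δ T M lam : ℝ, 0 < A → 0 < δ → δ ≤ 1 / 2 → 0 ≤ T → 2 ≤ M →
    (∀ s : ℂ, 3 / 2 - δ ≤ s.re → |s.im| ≤ T + 1 → ‖F s‖ ≤ M) → 0 ≤ lam → lam ≤ δ / C →
    ∀ S : Finset ℂ, (∀ ρ ∈ S, 3 / 2 - lam ≤ ρ.re ∧ |ρ.im| ≤ T) →
      ∑ ρ ∈ S, (analyticOrderNatAt (completed K A F) ρ : ℝ) ≤
        C * (M * (T + 2) / δ) ^ (C * lam / δ) := by
  obtain ⟨C, hC, h⟩ := Zd.density.{u} n
  have hexp : C ≤ Real.exp C := by linarith [Real.add_one_le_exp C]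
  have hexp1 : 1 ≤ Real.exp C := Real.one_le_exp hC.le
  refine ⟨Real.exp C, Real.exp_pos C, ?_⟩
  intro K _ _ W _ hn F hF hFL A δ T M lam hA hδ hδ1 hT hM hFM hlam hlamδ S hS
  have h1 : Real.exp C * lam ≤ δ := by
    rw [le_div_iff₀ (Real.exp_pos C)] at hlamδ
    linarith
  have h2 : C * lam ≤ δ := (mul_le_mul_of_nonneg_right hexp hlam).trans h1
  have h3 : lam ≤ 1 / 2 := by
    have : lam ≤ Real.exp C * lam := le_mul_of_one_le_left hlam hexp1
    linarith
  have h4 : ∑ ρ ∈ S, (analyticOrderNatAt (completed K A F) ρ : ℝ) =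
      ∑ ρ ∈ S, (analyticOrderNatAt F ρ : ℝ) := by
    refine Finset.sum_congr rfl fun ρ hρ => ?_
    rw [order_eq K hA hF (by linarith [(hS ρ hρ).1])]
  rw [h4]
  refine (h K W hn F hF hFL δ T M hδ hδ1 hT hM hFM lam hlam h2 S hS).trans ?_
  have hX : (8 : ℝ) ≤ M * (T + 2) / δ := by
    rw [le_div_iff₀ hδ]
    nlinarith
  have hlog : 0 ≤ Real.log (M * (T + 2) / δ) := Real.log_nonneg (by linarith)
  have h5 : Real.exp (C * (1 + lam * (Zfr.Lg M T δ / δ))) =
      Real.exp C * (M * (T + 2) / δ) ^ (C * lam / δ) := by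
    rw [Real.rpow_def_of_pos (by linarith), ← Real.exp_add]
    congr 1
    unfold Zfr.Lg
    ring
  rw [h5]
  refine mul_le_mul_of_nonneg_left ?_ (Real.exp_pos C).le
  refine Real.rpow_le_rpow_of_exponent_le (by linarith) ?_
  exact div_le_div_of_nonneg_right (mul_le_mul_of_nonneg_right hexp hlam) hδ.le

end Pool.Agent.Lib.MP_fb225e_nt.Old.ZeroDensity
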