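import Mathlib
import Pool.Agent.Lib.MP_fb225e_nt.Zfr.Main
import Pool.Agent.Lib.MP_fb225e_nt.Tw.Page

/-!
# MP_fb225e_nt: a zero-free region inside the critical strip for every continuable `L(E/K, s)`,
# and for all quadratic twists together

Only continuability is used. The size of the entire continuation `F` near the edge `Re s = 3/2`
enters through a parameter `M` (as in Titchmarsh, Theorem 3.10): `M` bounds `|F|` on the part
`|Im s| ≤ N (T + 1)` of the half-plane `Re s ≥ 3/2 - δ`, and the error term `M x ^ (1 - δ)` of the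
count of ideals of `K`.

* (a) For every number field `K` of degree `n` and every elliptic curve `W` over `K` there are at
  most two zeros, with multiplicity, in `Re s > 3/2 - c δ / log (M (T + 2) / δ)`, `|Im s| ≤ T`; the
  constant `c` depends only on `n`.
* (b) Let `E` be an elliptic curve over `ℚ`. Unless the primes `p` with `|a_p| > (2 - η) √p` have
  upper logarithmic density more than `η / (16 n)` (this contradicts the Sato-Tate law for small
  `η`), there is at most one zero, simple and real, of all the functions `L(E^d/K, s)`, `d ∈ Ds`,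
  together in that region, for all `K` of degree `n` and all finite sets `Ds` of non-zero integers;
  here `M` bounds also `|d|` and the sums of the characters `(dd'/N𝔞)`, `d ≠ d'`, over the ideals
  `𝔞` with `N𝔞 ≤ x`, divided by `x ^ (1 - δ)`; the constant `c` depends on `E`, `n`, `η`, but not on
  `K` or `Ds`. If `F` has polynomial growth on a half-plane `Re s ≥ 3/2 - δ`, then
  `Λ(E/K, s) ≠ 0` for `Re s > 3/2 - c' / log (|Im s| + 3)`, except perhaps for a simple zero at `3/2`.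

Proof: upper bounds for `- Re F'/F` and `- Re ζ_K'/ζ_K` from Landau's local lemma (zeros may be
dropped), and the positivity of `(2 + x_v) |∑_m (Nv)^(i τ_m)|²`, `x_v = a_v / √(Nv) ∈ [-2, 2]`, where
`τ_m` runs over the box of size `r` in the group generated by the ordinates of the zeros, and `r` is
chosen such that the boundary of the box does not matter; for (b) a Fejer kernel, and for two twists
with real zeros the inequality `|χ_d + χ_d'| ≤ 1 + χ_d χ_d'`, which forces `|x_v|` to be close to 2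
for half of the places.
-/

namespace Pool.Agent.Lib.MP_fb225e_nt.Old.ZeroFreeTwists

open Pool.Agent.MPfb225e NumberField Filter Topology

universe u

/-- The completed L-function `A ^ (s/2) ((2π)^(-s) Γ(s)) ^ [K:ℚ] F(s)`, where `F` is the entire
continuation of the L-series and `A` is the conductor (any positive real). -/
noncomputable def completed (K : Type u) [Field K] [NumberField K] (A : ℝ) (F : ℂ → ℂ) (s : ℂ) :
    ℂ :=
  (A : ℂ) ^ (s / 2) *
    ((2 * (Real.pi : ℂ)) ^ (-s) * Complex.Gamma s) ^ (Module.finrank ℚ K) * F s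

/-- `M` bounds `F` on `Re s ≥ 3/2 - δ`, `|Im s| ≤ H`, and the error term, of exponent `1 - δ`, of the
count of ideals of `K`. -/
structure Bounded (K : Type u) [Field K] [NumberField K] (F : ℂ → ℂ) (δ H M : ℝ) : Prop where
  pos : 0 < δ
  le_half : δ ≤ 1 / 2
  two_le : 2 ≤ M
  bound : ∀ s : ℂ, 3 / 2 - δ ≤ s.re → |s.im| ≤ H → ‖F s‖ ≤ M
  count : ∃ κ : ℝ, ∀ x : ℝ, 1 ≤ x →
    |(Nat.card {J : Ideal (𝓞 K) // J ≠ ⊥ ∧ (Ideal.absNorm J : ℝ) ≤ x} : ℝ) - κ * x| ≤
      M * x ^ (1 - δ)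

/-- The real character `k ↦ (a/k)` for odd `k`, and `0` for even `k`. -/
def psi (a : ℤ) (k : ℕ) : ℤ := if Odd k then jacobiSym a k else 0

/-- `M` bounds `|d|`, `F d` on `Re s ≥ 3/2 - δ`, `|Im s| ≤ H`, the error term, of exponent `1 - δ`,
of the count of ideals of `K`, and the sums of `(dd'/N𝔞)` over the ideals with `N𝔞 ≤ x`. -/
structure FamilyBounded (K : Type u) [Field K] [NumberField K] (Ds : Finset ℤ) (F : ℤ → ℂ → ℂ)
    (δ H M : ℝ) : Prop where
  pos : 0 < δ
  le_half : δ ≤ 1 / 2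
  two_le : 2 ≤ M
  size : ∀ d ∈ Ds, |(d : ℝ)| ≤ M
  bound : ∀ d ∈ Ds, ∀ s : ℂ, 3 / 2 - δ ≤ s.re → |s.im| ≤ H → ‖F d s‖ ≤ M
  count : ∃ κ : ℝ, ∀ x : ℝ, 1 ≤ x →
    |(Nat.card {J : Ideal (𝓞 K) // J ≠ ⊥ ∧ (Ideal.absNorm J : ℝ) ≤ x} : ℝ) - κ * x| ≤
      M * x ^ (1 - δ)
  chars : ∀ d ∈ Ds, ∀ d' ∈ Ds, d ≠ d' → ∀ x : ℝ, 1 ≤ x →
    |∑ k ∈ Finset.Icc 1 ⌊x⌋₊, (psi (d * d') k : ℝ) *
      (Nat.card {J : Ideal (𝓞 K) // Ideal.absNorm J = k} : ℝ)| ≤ M * x ^ (1 - δ)

/-- The quadratic twist of `W` by `d`: the curve `y² = x³ + d b₂ x² + 8 d² b₄ x + 16 d³ b₆`. -/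
def twist {K : Type u} [Field K] (W : WeierstrassCurve K) (d : K) : WeierstrassCurve K :=
  ⟨0, d * W.b₂, 0, 8 * d ^ 2 * W.b₄, 16 * d ^ 3 * W.b₆⟩

/-- The rectangle `Re s > 3/2 - c δ / log (M (T + 2) / δ)`, `|Im s| ≤ T`. -/
def rect (c δ T M : ℝ) : Set ℂ :=
  {s : ℂ | 3 / 2 - c * δ / Real.log (M * (T + 2) / δ) < s.re ∧ |s.im| ≤ T}

/-- The sum of `ε p ^ (-1-ε) log p` over the primes `p` with `|a_p| > (2 - η) √p`; its upper limit
for `ε → 0` is the upper logarithmic density of these primes. -/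
noncomputable def bias (E : WeierstrassCurve ℚ) (η ε : ℝ) : ℝ :=
  ε * ∑' p : Nat.Primes, {p : Nat.Primes | (2 - η) * √p < |(E.LFunction p : ℝ)|}.indicator
    (fun p : Nat.Primes => Real.log p * (p : ℝ) ^ (-(1 + ε))) p

theorem completed_eq (K : Type u) [Field K] [NumberField K] (A : ℝ) (F : ℂ → ℂ) :
    completed K A F = Fam.completed K A F := rfl

theorem bias_eq (E : WeierstrassCurve ℚ) (η ε : ℝ) :
    bias E η ε = ε * ∑' p : Nat.Primes, {p : Nat.Primes | 2 - η < |Fam.lam E p|}.indicator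
      (fun p : Nat.Primes => Real.log p * (p : ℝ) ^ (-(1 + ε))) p := by
  unfold bias
  have h : {p : Nat.Primes | (2 - η) * √p < |(E.LFunction p : ℝ)|} =
      {p : Nat.Primes | 2 - η < |Fam.lam E p|} := by
    ext p
    have hp : (0 : ℝ) < √(p : ℝ) := Real.sqrt_pos.2 (by exact_mod_cast p.2.pos)
    show (2 - η) * √p < |(E.LFunction p : ℝ)| ↔ 2 - η < |Fam.lam E p|
    unfold Fam.lam
    rw [abs_div, abs_of_pos hp, lt_div_iff₀ hp]
  rw [h]

/-- The one-sided bias is at most the two-sided one. -/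
theorem bias_le (E : WeierstrassCurve ℚ) (η : ℝ) {ε : ℝ} (hε : 0 < ε) :
    ε * ∑' p : Nat.Primes, {p : Nat.Primes | Fam.lam E p < -2 + η}.indicator
      (fun p : Nat.Primes => Real.log p * (p : ℝ) ^ (-(1 + ε))) p ≤
    ε * ∑' p : Nat.Primes, {p : Nat.Primes | 2 - η < |Fam.lam E p|}.indicator
      (fun p : Nat.Primes => Real.log p * (p : ℝ) ^ (-(1 + ε))) p := by
  have hs : Summable fun p : Nat.Primes => Real.log p * (p : ℝ) ^ (-(1 + ε)) :=
    (Zfr.pb_summable hε).comp_injective Nat.Primes.coe_nat_injective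
  refine mul_le_mul_of_nonneg_left ?_ hε.le
  refine Summable.tsum_le_tsum (fun p => ?_) (hs.indicator _) (hs.indicator _)
  refine Set.indicator_le_indicator_of_subset (fun q hq => ?_) (fun q => ?_) p
  · have h1 : Fam.lam E q < -2 + η := hq
    show 2 - η < |Fam.lam E q|
    linarith [neg_le_abs (Fam.lam E q)]
  · exact mul_nonneg (Real.log_natCast_nonneg _) (Real.rpow_nonneg (by positivity) _)

theorem psi_eq (a : ℤ) (k : ℕ) : psi a k = Tw.psi a k := rfl

theorem order_eq (K : Type u) [Field K] [NumberField K] {A : ℝ} (hA : 0 < A) {F : ℂ → ℂ}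
    (hF : Differentiable ℂ F) {s : ℂ} (hs : 0 < s.re) :
    analyticOrderNatAt (completed K A F) s = analyticOrderNatAt F s := by
  unfold analyticOrderNatAt
  rw [completed_eq, Fam.order_completed K hA hF hs]

theorem zero_of_completed (K : Type u) [Field K] [NumberField K] {A : ℝ} (hA : 0 < A) {F : ℂ → ℂ}
    {s : ℂ} (hs : 0 < s.re) (h : completed K A F s = 0) : F s = 0 :=
  (mul_eq_zero.mp h).resolve_left (Fam.pre_ne_zero _ hA hs)

/-- the width of the rectangle is at most `1/2` if `c ≤ 1` -/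
theorem pos_of_rect {c δ T M : ℝ} (hc0 : 0 < c) (hc : c ≤ 1) (hδ : 0 < δ) (hδ1 : δ ≤ 1 / 2)
    (hT : 0 ≤ T) (hM : 2 ≤ M) {s : ℂ} (hs : 3 / 2 - c * δ / Real.log (M * (T + 2) / δ) < s.re) :
    0 < s.re := by
  have h1 := Zfr.two_le_Lg hδ hδ1 hT hM
  unfold Zfr.Lg at h1
  have h2 : c * δ / Real.log (M * (T + 2) / δ) ≤ 1 := by
    rw [div_le_one (by linarith)]
    nlinarith
  linarith

theorem result (n : ℕ) :
    (∃ c : ℝ, 0 < c ∧ ∃ N : ℕ, ∀ (K : Type u) [Field K] [NumberField K] (W : WeierstrassCurve K)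
      [W.IsElliptic], Module.finrank ℚ K = n → ∀ F : ℂ → ℂ, Differentiable ℂ F →
      (∀ s : ℂ, 3 / 2 < s.re → F s = W.LSeries s) → ∀ A δ T M : ℝ, 0 < A → 0 ≤ T →
      Bounded K F δ (N * (T + 1)) M →
      ∀ S : Finset ℂ, (S : Set ℂ) ⊆ rect c δ T M →
        ∑ ρ ∈ S, analyticOrderNatAt (completed K A F) ρ ≤ 2) ∧
    (∀ (E : WeierstrassCurve ℚ) [E.IsElliptic] (η : ℝ), 0 < η → η ≤ 1 →
      (∃ᶠ ε : ℝ in 𝓝[>] 0, η / (16 * n) < bias E η ε) ∨
      (∃ c : ℝ, 0 < c ∧ ∃ N : ℕ, ∀ (K : Type u) [Field K] [NumberField K],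
        Module.finrank ℚ K = n → ∀ (Ds : Finset ℤ) (V : ℤ → WeierstrassCurve K),
        (∀ d ∈ Ds, d ≠ 0 ∧ ∃ C' : WeierstrassCurve.VariableChange K,
          C' • V d = twist (E.baseChange K) (d : K)) →
        ∀ F : ℤ → ℂ → ℂ, (∀ d ∈ Ds, Differentiable ℂ (F d)) →
        (∀ d ∈ Ds, ∀ s : ℂ, 3 / 2 < s.re → F d s = (V d).LSeries s) →
        ∀ (A : ℤ → ℝ) (δ T M : ℝ), (∀ d ∈ Ds, 0 < A d) → 0 ≤ T →
        FamilyBounded K Ds F δ (N * (T + 1)) M →
        ∃ (d₀ : ℤ) (β : ℝ), ∀ d ∈ Ds, ∀ ρ ∈ rect c δ T M, completed K (A d) (F d) ρ = 0 →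
          d = d₀ ∧ ρ = β ∧ analyticOrderNatAt (completed K (A d) (F d)) ρ = 1) ∧
      (∀ (K : Type u) [Field K] [NumberField K], Module.finrank ℚ K = n → ∀ F : ℂ → ℂ,
        Differentiable ℂ F → (∀ s : ℂ, 3 / 2 < s.re → F s = (E.baseChange K).LSeries s) →
        (∃ δ : ℝ, 0 < δ ∧ ∃ (B : ℕ) (C : ℝ), ∀ s : ℂ, 3 / 2 - δ ≤ s.re →
          ‖F s‖ ≤ C * (|s.im| + 2) ^ B) → ∀ A : ℝ, 0 < A →
        ∃ c : ℝ, 0 < c ∧ ∀ ρ : ℂ, 3 / 2 - c / Real.log (|ρ.im| + 3) < ρ.re →
          completed K A F ρ = 0 → ρ = 3 / 2 ∧ analyticOrderNatAt (completed K A F) ρ = 1)) := by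
  refine ⟨?_, ?_⟩
  · obtain ⟨c, hc, N, h⟩ := Zfr.at_most_two'.{u} n
    refine ⟨min c 1, by positivity, N, ?_⟩
    intro K _ _ W _ hn F hF hFL A δ T M hA hT hB S hS
    obtain ⟨hδ, hδ1, hM, hbd, κ, hcount⟩ := hB
    have hLg : 0 < Real.log (M * (T + 2) / δ) := by
      have := Zfr.two_le_Lg hδ hδ1 hT hM
      unfold Zfr.Lg at this
      linarith
    have h1 := h K W hn F hF hFL κ δ T M hδ hδ1 hT hM hbd hcount S fun ρ hρ => by
      obtain ⟨h2, h3⟩ := hS hρ
      refine ⟨?_, h3⟩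
      unfold Zfr.Lg
      have h4 : min c 1 * δ / Real.log (M * (T + 2) / δ) ≤ c * δ / Real.log (M * (T + 2) / δ) :=
        div_le_div_of_nonneg_right (mul_le_mul_of_nonneg_right (min_le_left _ _) hδ.le) hLg.le
      linarith
    rw [Finset.sum_congr rfl fun ρ hρ => order_eq K hA hF
      (pos_of_rect (by positivity) (min_le_right _ _) hδ hδ1 hT hM (hS hρ).1)]
    exact h1
  · intro E _ η hη hη1
    by_cases hb : ∃ᶠ ε : ℝ in 𝓝[>] 0, η / (16 * n) < bias E η ε
    · exact Or.inl hb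
    · right
      have hb' : ∀ᶠ ε : ℝ in 𝓝[>] 0, ε * ∑' p : Nat.Primes,
          {p : Nat.Primes | 2 - η < |Fam.lam E p|}.indicator
          (fun p : Nat.Primes => Real.log p * (p : ℝ) ^ (-(1 + ε))) p ≤ η / (16 * n) := by
        rw [not_frequently] at hb
        refine hb.mono fun ε hε => ?_
        rw [not_lt, bias_eq] at hε
        exact hε
      refine ⟨?_, ?_⟩
      · obtain ⟨c, hc, N, h⟩ := Tw.at_most_one_twist.{u} E n η hη hη1 hb'
        refine ⟨min c 1, by positivity, N, ?_⟩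
        intro K _ _ hn Ds V hV F hF hFL A δ T M hA hT hB
        obtain ⟨hδ, hδ1, hM, hsize, hbd, ⟨κ, hcount⟩, hchars⟩ := hB
        have hLg : 0 < Real.log (M * (T + 2) / δ) := by
          have := Zfr.two_le_Lg hδ hδ1 hT hM
          unfold Zfr.Lg at this
          linarith
        obtain ⟨d₀, β, hβ⟩ := h K hn Ds V (fun d hd => (hV d hd).1) (fun d hd => (hV d hd).2) F hF
          hFL κ δ T M hδ hδ1 hT hM hsize hbd hcount hchars
        refine ⟨d₀, β, fun d hd ρ hρ h0 => ?_⟩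
        obtain ⟨h2, h3⟩ := hρ
        have hpos := pos_of_rect (by positivity) (min_le_right _ _) hδ hδ1 hT hM h2
        rw [order_eq K (hA d hd) (hF d hd) hpos]
        refine hβ d hd ρ ?_ h3 (zero_of_completed K (hA d hd) hpos h0)
        unfold Zfr.Lg
        have h4 : min c 1 * δ / Real.log (M * (T + 2) / δ) ≤ c * δ / Real.log (M * (T + 2) / δ) :=
          div_le_div_of_nonneg_right (mul_le_mul_of_nonneg_right (min_le_left _ _) hδ.le) hLg.le
        linarith
      · intro K _ _ hn F hF hFL hgr A hA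
        have hb'' : ∀ᶠ ε : ℝ in 𝓝[>] 0, ε * ∑' p : Nat.Primes,
            {p : Nat.Primes | Fam.lam E p < -2 + η}.indicator
            (fun p : Nat.Primes => Real.log p * (p : ℝ) ^ (-(1 + ε))) p ≤ η / (16 * n) := by
          filter_upwards [hb', self_mem_nhdsWithin] with ε h1 h2
          exact (bias_le E η h2).trans h1
        rw [← hn] at hb''
        obtain ⟨c, hc, h⟩ := Zfr.classical_region.{u} E η hη hη1 K hb'' F hF hFL hgr
        refine ⟨min c 1, by positivity, fun ρ hρ h0 => ?_⟩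
        have hlog : 1 ≤ Real.log (|ρ.im| + 3) := by
          have h1 : Real.exp 1 ≤ |ρ.im| + 3 := by
            linarith [Real.exp_one_lt_d9, abs_nonneg ρ.im]
          calc (1 : ℝ) = Real.log (Real.exp 1) := (Real.log_exp 1).symm
            _ ≤ Real.log (|ρ.im| + 3) := Real.log_le_log (Real.exp_pos 1) h1
        have hpos : 0 < ρ.re := by
          have h2 : min c 1 / Real.log (|ρ.im| + 3) ≤ 1 := by
            rw [div_le_one (by linarith)]
            exact (min_le_right _ _).trans hlog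
          linarith
        rw [order_eq K hA hF hpos]
        refine h ρ ?_ (zero_of_completed K hA hpos h0)
        have h3 : min c 1 / Real.log (|ρ.im| + 3) ≤ c / Real.log (|ρ.im| + 3) :=
          div_le_div_of_nonneg_right (min_le_left _ _) (by linarith)
        linarith

end Pool.Agent.Lib.MP_fb225e_nt.Old.ZeroFreeTwists
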